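import Pool.Agent.Helper79K.DM.Upper

set_option autoImplicit false

namespace Pool.Agent.Helper79K.DM

open Pool.Agent.Helper76.Dim

/-- the symbol for a bit -/
def bt (b : Bool) : Sym 0 := some (Sum.inl b)

/-- an action with three tapes -/
def act3 {n : ℕ} (q : St n) (s0 s1 s2 : Sym 0) (d0 d1 d2 : Dir) : Action 0 0 n :=
  (q, ![(s0, d0), (s1, d1), (s2, d2)])

/-- a configuration with three tapes -/
def cf {n : ℕ} (q : St n) (t0 : ℕ → Sym 0) (h0 : ℕ) (l o : List Bool) : Cfg 0 0 n where
  state := q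
  tape := ![t0, tp l, tp o]
  head := ![h0, l.length, o.length]

variable {n : ℕ}

theorem cf_state (q : St n) (t0 : ℕ → Sym 0) (h0 : ℕ) (l o : List Bool) :
    (cf q t0 h0 l o).state = q := rfl

theorem cf_tape1 (q : St n) (t0 : ℕ → Sym 0) (h0 : ℕ) (l o : List Bool) :
    (cf q t0 h0 l o).tape 1 = tp l := rfl

theorem cf_tape2 (q : St n) (t0 : ℕ → Sym 0) (h0 : ℕ) (l o : List Bool) :
    (cf q t0 h0 l o).tape 2 = tp o := rfl

theorem cf_read0 (q : St n) (t0 : ℕ → Sym 0) (h0 : ℕ) (l o : List Bool) :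
    (cf q t0 h0 l o).read 0 = t0 h0 := rfl

theorem cf_read1 (q : St n) (t0 : ℕ → Sym 0) (h0 : ℕ) (l o : List Bool) :
    (cf q t0 h0 l o).read 1 = none := tp_length l

theorem cf_read2 (q : St n) (t0 : ℕ → Sym 0) (h0 : ℕ) (l o : List Bool) :
    (cf q t0 h0 l o).read 2 = none := tp_length o

theorem cfg_ext3 {c c' : Cfg 0 0 n} (h : c.state = c'.state) (h0 : c.tape 0 = c'.tape 0)
    (h1 : c.tape 1 = c'.tape 1) (h2 : c.tape 2 = c'.tape 2) (k0 : c.head 0 = c'.head 0)
    (k1 : c.head 1 = c'.head 1) (k2 : c.head 2 = c'.head 2) : c = c' := by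
  refine Cfg.ext h (funext fun i => ?_) (funext fun i => ?_)
  · match i with
    | ⟨0, _⟩ => exact h0
    | ⟨1, _⟩ => exact h1
    | ⟨2, _⟩ => exact h2
  · match i with
    | ⟨0, _⟩ => exact k0
    | ⟨1, _⟩ => exact k1
    | ⟨2, _⟩ => exact k2

theorem init_eq (u : List Bool) : Cfg.init 0 0 n u = cf 0 (tp u) 0 [] [] := by
  refine cfg_ext3 rfl ?_ ?_ ?_ rfl rfl rfl
  · rfl
  · rw [cf_tape1, tp_nil]; rfl
  · rw [cf_tape2, tp_nil]; rfl

/-- nothing is written on tapes 1 and 2 -/
theorem act_00 (q q' : St n) (t0 : ℕ → Sym 0) (h0 : ℕ) (l o : List Bool) (s0 : Sym 0) (d0 : Dir) :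
    (cf q t0 h0 l o).act (act3 q' s0 none none d0 .stay .stay) =
      cf q' (Function.update t0 h0 s0) (d0.move h0) l o := by
  refine cfg_ext3 rfl rfl ?_ ?_ rfl rfl rfl
  · exact update_none l
  · exact update_none o

/-- a bit is written on tape 1 -/
theorem act_10 (q q' : St n) (t0 : ℕ → Sym 0) (h0 : ℕ) (l o : List Bool) (s0 : Sym 0) (d0 : Dir)
    (b : Bool) :
    (cf q t0 h0 l o).act (act3 q' s0 (bt b) none d0 .right .stay) =
      cf q' (Function.update t0 h0 s0) (d0.move h0) (l ++ [b]) o := by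
  refine cfg_ext3 rfl rfl ?_ ?_ rfl ?_ rfl
  · exact update_tp l b
  · exact update_none o
  · show l.length + 1 = (l ++ [b]).length
    simp

/-- a bit is written on tape 2 -/
theorem act_01 (q q' : St n) (t0 : ℕ → Sym 0) (h0 : ℕ) (l o : List Bool) (s0 : Sym 0) (d0 : Dir)
    (b : Bool) :
    (cf q t0 h0 l o).act (act3 q' s0 none (bt b) d0 .stay .right) =
      cf q' (Function.update t0 h0 s0) (d0.move h0) l (o ++ [b]) := by
  refine cfg_ext3 rfl rfl ?_ ?_ rfl rfl ?_
  · exact update_none l
  · exact update_tp o b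
  · show o.length + 1 = (o ++ [b]).length
    simp

theorem update_self (t : ℕ → Sym 0) (h : ℕ) : Function.update t h (t h) = t :=
  Function.update_eq_self h t

theorem ask_yes {A : Set (List Bool)} {q : St n} {t0 : ℕ → Sym 0} {h0 : ℕ} {l o : List Bool}
    (h : l ∈ A) : (cf q t0 h0 l o).ask A = cf 2 t0 h0 l o := by
  have hw : word ((cf q t0 h0 l o).tape 1) ∈ A := by
    rw [cf_tape1, word_tp]
    exact h
  simp only [Cfg.ask, if_pos hw]
  rfl

theorem ask_no {A : Set (List Bool)} {q : St n} {t0 : ℕ → Sym 0} {h0 : ℕ} {l o : List Bool}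
    (h : l ∉ A) : (cf q t0 h0 l o).ask A = cf 3 t0 h0 l o := by
  have hw : word ((cf q t0 h0 l o).tape 1) ∉ A := by
    rw [cf_tape1, word_tp]
    exact h
  simp only [Cfg.ask, if_neg hw]
  rfl

/-- the step function given by a transition function -/
noncomputable def stp {k g n : ℕ} (δ : St n → (Fin (k + 3) → Sym g) → Action k g n)
    (A : Set (List Bool)) (c : Cfg k g n) : Cfg k g n :=
  if c.state = 4 ∨ c.state = 5 then c else if c.state = 1 then c.ask A
    else c.act (δ c.state c.read)

/-- copying -/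
def g6 (s : Fin 3 → Sym 0) : Action 0 0 3 :=
  match s 0 with
  | some (Sum.inl b) => act3 7 (s 0) (bt b) (s 2) .stay .right .stay
  | _ => act3 8 (s 0) (s 1) (s 2) .stay .stay .stay

/-- after the answer `b` -/
def g23 (b : Bool) (s : Fin 3 → Sym 0) : Action 0 0 3 :=
  match s 0 with
  | some _ => act3 8 none (s 1) (bt b) .stay .stay .right
  | none => if b then act3 8 (bt true) (s 1) (s 2) .stay .stay .stay
      else act3 4 (s 0) (s 1) (s 2) .stay .stay .stay

/-- the transition function -/
def dG (q : St 3) (s : Fin 3 → Sym 0) : Action 0 0 3 :=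
  match q.1 with
  | 0 => act3 6 (s 0) (bt false) (s 2) .stay .right .stay
  | 2 => g23 true s
  | 3 => g23 false s
  | 6 => g6 s
  | 7 => act3 6 (s 0) (bt false) (s 2) .right .right .stay
  | _ => act3 1 (s 0) (bt true) (s 2) .stay .right .stay

/-- The machine which copies the input to the query tape and then asks for the bits of the
output one after another. -/
def MG : DTM := ⟨0, 0, 3, dG⟩

theorem MG_step (A : Set (List Bool)) : MG.step A = stp dG A := rfl

/-- a run of the machine -/
def Run (A : Set (List Bool)) (m : ℕ) (c c' : Cfg 0 0 3) : Prop := (stp dG A)^[m] c = c'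

theorem Run.trans {A : Set (List Bool)} {m m' : ℕ} {c c' c'' : Cfg 0 0 3} (h : Run A m c c')
    (h' : Run A m' c' c'') : Run A (m + m') c c'' := by
  rw [Run] at h h'
  rw [Run, Nat.add_comm, Function.iterate_add_apply, h, h']

theorem Run.one {A : Set (List Bool)} {c c' : Cfg 0 0 3} (h4 : c.state ≠ 4) (h5 : c.state ≠ 5)
    (h1 : c.state ≠ 1) (h : c.act (dG c.state c.read) = c') : Run A 1 c c' := by
  rw [Run, Function.iterate_one, stp, if_neg (by tauto), if_neg h1]
  exact h

theorem Run.yes {A : Set (List Bool)} {t0 : ℕ → Sym 0} {h0 : ℕ} {l o : List Bool} (h : l ∈ A) :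
    Run A 1 (cf 1 t0 h0 l o) (cf 2 t0 h0 l o) := by
  rw [Run, Function.iterate_one, stp, if_neg (by simp [cf_state, Fin.ext_iff]),
    if_pos (cf_state _ _ _ _ _)]
  exact ask_yes h

theorem Run.no {A : Set (List Bool)} {t0 : ℕ → Sym 0} {h0 : ℕ} {l o : List Bool} (h : l ∉ A) :
    Run A 1 (cf 1 t0 h0 l o) (cf 3 t0 h0 l o) := by
  rw [Run, Function.iterate_one, stp, if_neg (by simp [cf_state, Fin.ext_iff]),
    if_pos (cf_state _ _ _ _ _)]
  exact ask_no h

variable {A : Set (List Bool)}

theorem run_start (u : List Bool) : Run A 1 (cf 0 (tp u) 0 [] []) (cf 6 (tp u) 0 [false] []) := by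
  refine Run.one (by simp [cf_state, Fin.ext_iff]) (by simp [cf_state, Fin.ext_iff])
    (by simp [cf_state]) ?_
  have h : dG 0 (cf (0 : St 3) (tp u) 0 [] []).read =
      act3 6 (tp u 0) (bt false) none .stay .right .stay := by
    show act3 6 ((cf (0 : St 3) (tp u) 0 [] []).read 0) (bt false)
      ((cf (0 : St 3) (tp u) 0 [] []).read 2) .stay .right .stay = _
    rw [cf_read0, cf_read2]
  rw [cf_state, h, act_10, update_self]
  rfl

theorem run_copyA (u l o : List Bool) {i : ℕ} (hi : i < u.length) :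
    Run A 1 (cf 6 (tp u) i l o) (cf 7 (tp u) i (l ++ [u[i]]) o) := by
  refine Run.one (by simp [cf_state, Fin.ext_iff]) (by simp [cf_state, Fin.ext_iff])
    (by simp [cf_state, Fin.ext_iff]) ?_
  have h : dG 6 (cf (6 : St 3) (tp u) i l o).read =
      act3 7 (tp u i) (bt u[i]) none .stay .right .stay := by
    show g6 _ = _
    rw [g6, cf_read0, cf_read2, tp_get u hi]
  rw [cf_state, h, act_10, update_self]
  rfl

theorem run_copyB (u l o : List Bool) (i : ℕ) :
    Run A 1 (cf 7 (tp u) i l o) (cf 6 (tp u) (i + 1) (l ++ [false]) o) := by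
  refine Run.one (by simp [cf_state, Fin.ext_iff]) (by simp [cf_state, Fin.ext_iff])
    (by simp [cf_state, Fin.ext_iff]) ?_
  have h : dG 7 (cf (7 : St 3) (tp u) i l o).read =
      act3 6 (tp u i) (bt false) none .right .right .stay := by
    show act3 6 ((cf (7 : St 3) (tp u) i l o).read 0) (bt false)
      ((cf (7 : St 3) (tp u) i l o).read 2) .right .right .stay = _
    rw [cf_read0, cf_read2]
  rw [cf_state, h, act_10, update_self]
  rfl

theorem run_copy_end (u l o : List Bool) :
    Run A 1 (cf 6 (tp u) u.length l o) (cf 8 (tp u) u.length l o) := by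
  refine Run.one (by simp [cf_state, Fin.ext_iff]) (by simp [cf_state, Fin.ext_iff])
    (by simp [cf_state, Fin.ext_iff]) ?_
  have h : dG 6 (cf (6 : St 3) (tp u) u.length l o).read =
      act3 8 (tp u u.length) none none .stay .stay .stay := by
    show g6 _ = _
    rw [g6, cf_read0, cf_read1, cf_read2, tp_length]
  rw [cf_state, h, act_00, update_self]
  rfl

theorem run_ask (t0 : ℕ → Sym 0) (h0 : ℕ) (l o : List Bool) :
    Run A 1 (cf 8 t0 h0 l o) (cf 1 t0 h0 (l ++ [true]) o) := by
  refine Run.one (by simp [cf_state, Fin.ext_iff]) (by simp [cf_state, Fin.ext_iff])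
    (by simp [cf_state, Fin.ext_iff]) ?_
  have h : dG 8 (cf (8 : St 3) t0 h0 l o).read =
      act3 1 (t0 h0) (bt true) none .stay .right .stay := by
    show act3 1 ((cf (8 : St 3) t0 h0 l o).read 0) (bt true)
      ((cf (8 : St 3) t0 h0 l o).read 2) .stay .right .stay = _
    rw [cf_read0, cf_read2]
  rw [cf_state, h, act_10, update_self]
  rfl

theorem update_mark (u : List Bool) :
    Function.update (tp u) u.length (bt true) = tp (u ++ [true]) := update_tp u true

theorem update_unmark (u : List Bool) :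
    Function.update (tp (u ++ [true]) : ℕ → Sym 0) u.length none = tp u := by
  rw [← update_tp u true, Function.update_idem, update_none]

theorem mark_read (u : List Bool) : (tp (u ++ [true]) : ℕ → Sym 0) u.length = bt true := by
  rw [tp_get _ (by simp)]
  simp [bt]

theorem run_yes_unmarked (u l o : List Bool) :
    Run A 1 (cf 2 (tp u) u.length l o) (cf 8 (tp (u ++ [true])) u.length l o) := by
  refine Run.one (by simp [cf_state, Fin.ext_iff]) (by simp [cf_state, Fin.ext_iff])
    (by simp [cf_state, Fin.ext_iff]) ?_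
  have h : dG 2 (cf (2 : St 3) (tp u) u.length l o).read =
      act3 8 (bt true) none none .stay .stay .stay := by
    show g23 true _ = _
    rw [g23, cf_read0, cf_read1, cf_read2, tp_length]
    rfl
  rw [cf_state, h, act_00, update_mark]
  rfl

theorem run_yes_marked (u l o : List Bool) :
    Run A 1 (cf 2 (tp (u ++ [true])) u.length l o) (cf 8 (tp u) u.length l (o ++ [true])) := by
  refine Run.one (by simp [cf_state, Fin.ext_iff]) (by simp [cf_state, Fin.ext_iff])
    (by simp [cf_state, Fin.ext_iff]) ?_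
  have h : dG 2 (cf (2 : St 3) (tp (u ++ [true])) u.length l o).read =
      act3 8 none none (bt true) .stay .stay .right := by
    show g23 true _ = _
    rw [g23, cf_read0, cf_read1, mark_read]
    rfl
  rw [cf_state, h, act_01, update_unmark]
  rfl

theorem run_no_unmarked (u l o : List Bool) :
    Run A 1 (cf 3 (tp u) u.length l o) (cf 4 (tp u) u.length l o) := by
  refine Run.one (by simp [cf_state, Fin.ext_iff]) (by simp [cf_state, Fin.ext_iff])
    (by simp [cf_state, Fin.ext_iff]) ?_
  have h : dG 3 (cf (3 : St 3) (tp u) u.length l o).read =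
      act3 4 (tp u u.length) none none .stay .stay .stay := by
    show g23 false _ = _
    rw [g23, cf_read0, cf_read1, cf_read2, tp_length]
    rfl
  rw [cf_state, h, act_00, update_self]
  rfl

theorem run_no_marked (u l o : List Bool) :
    Run A 1 (cf 3 (tp (u ++ [true])) u.length l o) (cf 8 (tp u) u.length l (o ++ [false])) := by
  refine Run.one (by simp [cf_state, Fin.ext_iff]) (by simp [cf_state, Fin.ext_iff])
    (by simp [cf_state, Fin.ext_iff]) ?_
  have h : dG 3 (cf (3 : St 3) (tp (u ++ [true])) u.length l o).read =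
      act3 8 none none (bt false) .stay .stay .right := by
    show g23 false _ = _
    rw [g23, cf_read0, cf_read1, mark_read]
    rfl
  rw [cf_state, h, act_01, update_unmark]
  rfl

theorem run_copy (u : List Bool) (i : ℕ) (hi : i ≤ u.length) :
    Run A (1 + 2 * i) (cf 0 (tp u) 0 [] []) (cf 6 (tp u) i (false :: cd (u.take i)) []) := by
  induction i with
  | zero => exact run_start u
  | succ i ih =>
    have h1 := (ih (by omega)).trans ((run_copyA u _ [] (i := i) (by omega)).trans
      (run_copyB u _ [] i))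
    have e : false :: cd (u.take (i + 1)) = false :: cd (u.take i) ++ [u[i]] ++ [false] := by
      rw [List.take_succ_eq_append_getElem (by omega), cd_append]
      simp [cd]
    rw [e]
    exact h1

theorem encT_append (u : List Bool) (j : ℕ) : encT u j ++ [true] = encT u (j + 1) := by
  simp [encT, List.replicate_succ']

theorem bit_odd {o : List Bool} {i : ℕ} : Bit o (2 * i + 1) ↔ i < o.length := by
  constructor
  · rintro ⟨j, ⟨h1, h2⟩ | ⟨h1, h2⟩⟩
    · have : i = j := by omega
      rwa [this]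
    · omega
  · exact fun h => ⟨i, Or.inl ⟨rfl, h⟩⟩

theorem bit_even {o : List Bool} {i : ℕ} : Bit o (2 * i + 2) ↔ o[i]? = some true := by
  constructor
  · rintro ⟨j, ⟨h1, h2⟩ | ⟨h1, h2⟩⟩
    · omega
    · have : i = j := by omega
      rwa [this]
  · exact fun h => ⟨i, Or.inr ⟨rfl, h⟩⟩

theorem run_loop {u o : List Bool} (h : ∀ j, encT u j ∈ A ↔ Bit o j) (i : ℕ) (hi : i ≤ o.length) :
    Run A (6 * i) (cf 8 (tp u) u.length (encT u 0) [])
      (cf 8 (tp u) u.length (encT u (2 * i)) (o.take i)) := by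
  induction i with
  | zero => exact rfl
  | succ i ih =>
    have hi' : i < o.length := by omega
    have h1 : encT u (2 * i + 1) ∈ A := (h _).2 (bit_odd.2 hi')
    have s1 := (ih (by omega)).trans (run_ask (tp u) u.length (encT u (2 * i)) (o.take i))
    rw [encT_append] at s1
    have s2 := (s1.trans (Run.yes h1)).trans (run_yes_unmarked u (encT u (2 * i + 1)) (o.take i))
    have s3 := s2.trans (run_ask _ u.length (encT u (2 * i + 1)) (o.take i))
    rw [encT_append] at s3
    have e1 : o.take (i + 1) = o.take i ++ [o[i]] := List.take_succ_eq_append_getElem hi'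
    have e2 : o[i]? = some o[i] := by simp [hi']
    have e3 : 6 * (i + 1) = 6 * i + 1 + 1 + 1 + 1 + 1 + 1 := by ring
    have e4 : 2 * (i + 1) = 2 * i + 1 + 1 := by ring
    rw [e1, e3, e4]
    cases hb : o[i]
    · have h2 : encT u (2 * i + 1 + 1) ∉ A := fun h3 => by
        have := bit_even.1 ((h _).1 h3)
        rw [e2, hb] at this
        simp at this
      exact (s3.trans (Run.no h2)).trans (run_no_marked u _ _)
    · have h2 : encT u (2 * i + 1 + 1) ∈ A := (h _).2 (bit_even.2 (by rw [e2, hb]))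
      exact (s3.trans (Run.yes h2)).trans (run_yes_marked u _ _)

theorem MG_outputs {u o : List Bool} (h : ∀ j, encT u j ∈ A ↔ Bit o j) {T : ℕ}
    (hT : 2 * u.length + 6 * o.length + 5 ≤ T) : MG.Outputs A u T o := by
  have s1 := run_copy (A := A) u u.length le_rfl
  rw [List.take_length] at s1
  have e0 : false :: cd u = encT u 0 := by simp [encT]
  rw [e0] at s1
  have s2 := (s1.trans (run_copy_end u (encT u 0) [])).trans (run_loop h o.length le_rfl)
  rw [List.take_length] at s2
  have s3 := s2.trans (run_ask (tp u) u.length _ _)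
  rw [encT_append] at s3
  have h1 : encT u (2 * o.length + 1) ∉ A := fun h3 => by
    have := bit_odd.1 ((h _).1 h3)
    omega
  have s4 := (s3.trans (Run.no h1)).trans (run_no_unmarked u _ _)
  refine ⟨1 + 2 * u.length + 1 + 6 * o.length + 1 + 1 + 1, by omega, ?_⟩
  have s5 : (MG.step A)^[1 + 2 * u.length + 1 + 6 * o.length + 1 + 1 + 1]
      (Cfg.init MG.k MG.g MG.n u) =
        cf (n := 3) 4 (tp u) u.length (encT u (2 * o.length + 1)) o := by
    have e : Cfg.init MG.k MG.g MG.n u = cf (n := 3) 0 (tp u) 0 [] [] := init_eq u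
    rw [e]
    exact s4
  rw [s5]
  exact ⟨rfl, word_tp o⟩

/-! ### Rational approximation -/

theorem apx_le (r : ℕ) (v : ℝ) : |(apx r v : ℝ) - v| ≤ 2 ^ (-(r : ℝ)) := by
  have h1 : (0 : ℝ) < 2 ^ r := by positivity
  have h2 : (apx r v : ℝ) = (⌊v * 2 ^ r⌋ : ℝ) / 2 ^ r := by
    rw [apx]
    push_cast
    rfl
  have h3 := Int.floor_le (v * 2 ^ r)
  have h4 := Int.lt_floor_add_one (v * 2 ^ r)
  have h5 : (2 : ℝ) ^ (-(r : ℝ)) = 1 / 2 ^ r := by
    rw [Real.rpow_neg (by norm_num), Real.rpow_natCast, one_div]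
  rw [h2, h5, abs_le]
  constructor
  · rw [neg_le_sub_iff_le_add, ← add_div, le_div_iff₀ h1]
    linarith
  · rw [sub_le_iff_le_add, div_add' _ _ _ h1.ne', div_le_div_iff_of_pos_right h1]
    linarith

theorem length_out {r e : ℕ} {v : ℝ} (h0 : 0 ≤ v) (h1 : v ≤ 2 ^ e) :
    (ratCode (apx r v)).length ≤ 2 * (e + r + 1) + (r + 1) + 3 := by
  rw [length_ratCode]
  have hz : 0 ≤ ⌊v * 2 ^ r⌋ := Int.floor_nonneg.2 (by positivity)
  have hz1 : ⌊v * 2 ^ r⌋ ≤ 2 ^ (e + r) := by
    have h3 := Int.floor_le (v * 2 ^ r)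
    have h4 : v * 2 ^ r ≤ 2 ^ (e + r) := by
      rw [pow_add]
      gcongr
    have h5 : ((⌊v * 2 ^ r⌋ : ℤ) : ℝ) ≤ ((2 ^ (e + r) : ℤ) : ℝ) := by
      push_cast
      linarith
    exact_mod_cast h5
  have hq : apx r v = Rat.divInt ⌊v * 2 ^ r⌋ (2 ^ r : ℤ) := by
    rw [apx, Rat.divInt_eq_div]
    push_cast
    rfl
  have hden : ((apx r v).den : ℤ) ∣ 2 ^ r := by
    rw [hq]
    exact Rat.den_dvd _ _
  have hnum : (apx r v).num ∣ ⌊v * 2 ^ r⌋ := by
    rw [hq]
    exact Rat.num_dvd _ (by positivity)
  have h6 : (apx r v).den.size ≤ r + 1 := by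
    rw [Nat.size_le]
    have h7 : (apx r v).den ≤ 2 ^ r := Nat.le_of_dvd (by positivity) (by exact_mod_cast hden)
    rw [pow_succ]
    have : 0 < 2 ^ r := by positivity
    omega
  have h7 : (apx r v).num.natAbs.size ≤ e + r + 1 := by
    rw [Nat.size_le]
    have h8 : (apx r v).num.natAbs ≤ 2 ^ (e + r) := by
      rcases eq_or_lt_of_le hz with h9 | h9
      · have : (apx r v) = 0 := by
          rw [hq, ← h9]
          simp
        rw [this]
        simp
      · have h10 := Int.natAbs_le_of_dvd_ne_zero hnum h9.ne'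
        have h11 : (⌊v * 2 ^ r⌋.natAbs : ℤ) ≤ ((2 ^ (e + r) : ℕ) : ℤ) := by
          rw [Int.natAbs_of_nonneg hz]
          push_cast
          exact hz1
        have h12 : ⌊v * 2 ^ r⌋.natAbs ≤ 2 ^ (e + r) := by exact_mod_cast h11
        exact h10.trans h12
    have : 0 < 2 ^ (e + r) := by positivity
    rw [pow_succ]
    omega
  omega

/-- The gale is computable in polynomial time relative to the oracle. -/
theorem gale_computable (ω : Om) : PComputable (Or ω) (gale ω) := by
  refine ⟨MG, 20 * Polynomial.X + 43, fun r w => apx r (gale ω w), fun r w => apx_le r _, ?_⟩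
  intro r w
  refine MG_outputs (fun j => ?_) ?_
  · rw [mem_Or, mem_gen_tab (kind_tab r w j)]
    rfl
  · have h1 := length_out (r := r) ((gale_isGale ω).1 w) (gale_le ω w)
    simp only [Polynomial.eval_add, Polynomial.eval_mul, Polynomial.eval_X,
      Polynomial.eval_ofNat]
    have h2 : (inp r w).length = r + 1 + w.length := by
      simp [inp]
      omega
    rw [h2]
    omega

end Pool.Agent.Helper79K.DM
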