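import Pool.Agent.Helper79K.DM.Gale

set_option autoImplicit false

namespace Pool.Agent.Helper79K.DM

open Pool.Agent.Helper76.Dim

open MeasureTheory Filter

theorem poly_le (p : Polynomial ℕ) (c : ℕ) : ∀ᶠ t : ℕ in atTop, c * p.eval (t + 1) ≤ 2 ^ t := by
  induction p using Polynomial.induction_on' generalizing c with
  | add p q hp hq =>
    filter_upwards [hp (2 * c), hq (2 * c)] with t h1 h2
    rw [Polynomial.eval_add]
    nlinarith
  | monomial d a =>
    have h1 := tendsto_pow_const_div_const_pow_of_one_lt d (r := (2 : ℝ)) (by norm_num)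
    have h2 : Tendsto (fun t : ℕ => ((t + 1 : ℕ) : ℝ) ^ d / 2 ^ (t + 1)) atTop (nhds 0) :=
      h1.comp (tendsto_add_atTop_nat 1)
    have h3 : (0 : ℝ) < 1 / (2 * (c * a + 1)) := by positivity
    filter_upwards [(tendsto_order.1 h2).2 _ h3] with t ht
    rw [div_lt_div_iff₀ (by positivity) (by positivity), pow_succ] at ht
    have h4 : ((c * (a * (t + 1) ^ d) : ℕ) : ℝ) ≤ ((2 ^ t : ℕ) : ℝ) := by
      push_cast at ht ⊢
      have h5 : (0 : ℝ) ≤ ((t : ℝ) + 1) ^ d := by positivity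
      nlinarith
    rw [Polynomial.eval_monomial]
    exact_mod_cast h4

theorem eval_mono (p : Polynomial ℕ) {a b : ℕ} (h : a ≤ b) : p.eval a ≤ p.eval b := by
  rw [Polynomial.eval_eq_sum, Polynomial.eval_eq_sum]
  exact Finset.sum_le_sum fun i _ => Nat.mul_le_mul_left _ (Nat.pow_le_pow_left h i)

theorem two_mul_le (t : ℕ) (ht : 13 ≤ t) : 2 * t + 2 ≤ 2 ^ (t - 8) := by
  induction t, ht using Nat.le_induction with
  | base => norm_num
  | succ t ht ih =>
    have : t + 1 - 8 = (t - 8) + 1 := by omega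
    rw [this, pow_succ]
    omega

theorem por_initSeg (X : ℕ → Bool) {t m : ℕ} (h : 2 ^ (t + 1) - 1 ≤ m) :
    por t (initSeg X m) = (List.range (2 ^ t)).map fun i => X (2 ^ t - 1 + i) :=
  drop_take_initSeg X (by rwa [← two_pow_succ_sub])

theorem mm_ge_aa (ω : Om) {t : ℕ} {w : List Bool} (h : t < w.length + 1) :
    (1 / 2) ^ (t + 1) * (aa Or t w / 2) ≤ mm ω w := by
  have h1 : ∀ t' ∈ Finset.range (w.length + 1),
      0 ≤ (1 / 2 : ℝ) ^ (t' + 1) * ((aa Or t' w + bb (unl Or ω w t') t' w) / 2) := by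
    intro t' _
    have h1 := aa_nonneg Or t' w
    have h2 := bb_nonneg (unl Or ω w t') t' w
    positivity
  have h2 := Finset.single_le_sum h1 (Finset.mem_range.2 h)
  have h3 : (0 : ℝ) ≤ (1 / 2) ^ (w.length + 1) := by positivity
  have h4 : (1 / 2 : ℝ) ^ (t + 1) * (aa Or t w / 2) ≤
      (1 / 2) ^ (t + 1) * ((aa Or t w + bb (unl Or ω w t) t w) / 2) := by
    have := bb_nonneg (unl Or ω w t) t w
    gcongr
    linarith
  exact (h4.trans h2).trans (le_add_of_nonneg_right h3)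

theorem mm_ge_bb (ω : Om) {t : ℕ} {w : List Bool} (h : t < w.length + 1) :
    (1 / 2) ^ (t + 1) * (bb (unl Or ω w t) t w / 2) ≤ mm ω w := by
  have h1 : ∀ t' ∈ Finset.range (w.length + 1),
      0 ≤ (1 / 2 : ℝ) ^ (t' + 1) * ((aa Or t' w + bb (unl Or ω w t') t' w) / 2) := by
    intro t' _
    have h1 := aa_nonneg Or t' w
    have h2 := bb_nonneg (unl Or ω w t') t' w
    positivity
  have h2 := Finset.single_le_sum h1 (Finset.mem_range.2 h)
  have h3 : (0 : ℝ) ≤ (1 / 2) ^ (w.length + 1) := by positivity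
  have h4 : (1 / 2 : ℝ) ^ (t + 1) * (bb (unl Or ω w t) t w / 2) ≤
      (1 / 2) ^ (t + 1) * ((aa Or t w + bb (unl Or ω w t) t w) / 2) := by
    have := aa_nonneg Or t w
    gcongr
    linarith
  exact (h4.trans h2).trans (le_add_of_nonneg_right h3)

theorem hh_eq {t : ℕ} (ht : 13 ≤ t) : hh t = 4 * t := by
  rw [hh, min_eq_left]
  have h1 : 128 * (4 * t) ≤ 2 ^ t := by
    induction t, ht using Nat.le_induction with
    | base => norm_num
    | succ t ht ih => rw [pow_succ]; omega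
  omega

theorem gale_ge (ω : Om) {t : ℕ} (ht : 13 ≤ t) {w : List Bool}
    (h : (1 / 2) ^ (t + 1) * ((2 : ℝ) ^ hh t / 2) ≤ mm ω w) : (2 : ℝ) ^ t ≤ gale ω w := by
  refine le_trans ?_ h
  have h1 : (2 : ℝ) ^ hh t = 2 ^ (t + 1) * (2 * 2 ^ t * 2 ^ (2 * t - 2)) := by
    rw [hh_eq ht]
    have : 4 * t = (t + 1) + (1 + t + (2 * t - 2)) := by omega
    rw [this, pow_add 2 (t + 1), pow_add 2 (1 + t), pow_add 2 1 t, pow_one]
  have h2 : (1 : ℝ) ≤ 2 ^ (2 * t - 2) := one_le_pow₀ (by norm_num)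
  have h3 : ((1 : ℝ) / 2) ^ (t + 1) * 2 ^ (t + 1) = 1 := by
    rw [← mul_pow]
    norm_num
  have h4 : ((1 : ℝ) / 2) ^ (t + 1) * ((2 : ℝ) ^ hh t / 2) = 2 ^ t * 2 ^ (2 * t - 2) := by
    rw [h1]
    calc ((1 : ℝ) / 2) ^ (t + 1) * (2 ^ (t + 1) * (2 * 2 ^ t * 2 ^ (2 * t - 2)) / 2) =
        (((1 : ℝ) / 2) ^ (t + 1) * 2 ^ (t + 1)) * (2 ^ t * 2 ^ (2 * t - 2)) := by ring
      _ = _ := by rw [h3, one_mul]
  rw [h4]
  have h5 : (0 : ℝ) < 2 ^ t := by positivity
  nlinarith

theorem two_pow_le_gale {ω : Om} {L : Set (List Bool)} {t : ℕ} (ht : 13 ≤ t)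
    (h : ∀ x : List Bool, x.length = t ∨ x.length = t + 1 → (x ∈ LL t (Or ω) ↔ x ∈ L)) :
    ∃ m ≥ t, (2 : ℝ) ^ t ≤ gale ω (initSeg (chi L) m) := by
  have hkey : key (Or ω) t = (List.range (2 ^ t)).map fun i => chi L (2 ^ t - 1 + i) := by
    refine List.map_congr_left fun i hi => ?_
    rw [List.mem_range] at hi
    exact decide_eq_decide.2 (h _ (Or.inl (len_key hi)))
  have hadv : adv (Or ω) t = (List.range (hh t)).map fun i => chi L (2 ^ (t + 1) - 1 + i) := by
    refine List.map_congr_left fun i hi => ?_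
    rw [List.mem_range] at hi
    exact decide_eq_decide.2 (h _ (Or.inr (len_adv hi)))
  have hpos : 1 ≤ 2 ^ t := Nat.one_le_two_pow
  have htlt : t < 2 ^ t := Nat.lt_two_pow_self
  have hsucc : 2 ^ (t + 1) = 2 * 2 ^ t := by rw [pow_succ]; ring
  have hsucc2 : 2 ^ (t + 2) = 4 * 2 ^ t := by rw [pow_add]; ring
  have hhle := hh_le t
  by_cases hI : Imp Or t (key (Or ω) t)
  · -- the key is improbable: the advice is unlocked
    refine ⟨2 ^ (t + 1) - 1 + hh t, by omega, ?_⟩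
    have e1 : por t (initSeg (chi L) (2 ^ (t + 1) - 1 + hh t)) = key (Or ω) t := by
      rw [hkey]
      exact por_initSeg _ (Nat.le_add_right _ _)
    have e2 : tai t (initSeg (chi L) (2 ^ (t + 1) - 1 + hh t)) = adv (Or ω) t := by
      rw [hadv]
      exact drop_take_initSeg _ le_rfl
    apply gale_ge ω ht
    refine le_trans (le_of_eq ?_) (mm_ge_bb ω (t := t) (by rw [length_initSeg]; omega))
    rw [unl, if_pos ⟨e1, by rw [e1]; exact hI⟩]
    simp only [bb]
    rw [e2, if_pos List.prefix_rfl, length_adv]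
  · refine ⟨2 ^ (t + 1) - 1, by omega, ?_⟩
    have e1 : por t (initSeg (chi L) (2 ^ (t + 1) - 1)) = key (Or ω) t := by
      rw [hkey]
      exact por_initSeg _ le_rfl
    apply gale_ge ω ht
    refine le_trans ?_ (mm_ge_aa ω (t := t) (by rw [length_initSeg]; omega))
    have h1 : (1 / 2 : ℝ) ^ (2 ^ t - hh t) ≤ pr Or t (key (Or ω) t) := by
      rw [Imp, not_lt] at hI
      refine hI.trans (measureReal_mono fun ω' h' => ?_)
      have h'' : key (Or ω') t = key (Or ω) t := h'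
      show key (Or ω) t <+: key (Or ω') t
      rw [h'']
    have h2 : (2 : ℝ) ^ hh t ≤ aa Or t (initSeg (chi L) (2 ^ (t + 1) - 1)) := by
      rw [aa, e1, length_key]
      have h3 : (2 : ℝ) ^ (2 ^ t) = 2 ^ hh t * 2 ^ (2 ^ t - hh t) := by
        rw [← pow_add]
        congr 1
        omega
      have h4 : (2 : ℝ) ^ (2 ^ t) * (1 / 2) ^ (2 ^ t - hh t) = 2 ^ hh t := by
        rw [h3, one_div, inv_pow, mul_assoc, mul_inv_cancel₀ (by positivity), mul_one]
      rw [← h4]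
      gcongr
    gcongr

/-- The gale succeeds on all languages in `NP` relative to the oracle. -/
theorem gale_succeeds (ω : Om) {L : Set (List Bool)} (hL : L ∈ NP (Or ω)) :
    Succeeds (gale ω) (chi L) := by
  obtain ⟨M, p, h1, h2⟩ := hL
  obtain ⟨e, he⟩ := mach_surj (M, p)
  intro C m
  obtain ⟨T, hT⟩ := eventually_atTop.1 (poly_le p 1)
  obtain ⟨c, hc⟩ := exists_nat_gt C
  set t := Nat.pair e (T + c + m + 13) with ht
  have ht1 : T + c + m + 13 ≤ t := Nat.right_le_pair _ _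
  have hu : t.unpair.1 = e := by rw [ht, Nat.unpair_pair]
  have hb : ∀ j, tb t j = p.eval j := fun j => by rw [tb, hu, he]
  have hT1 := hT t (by omega)
  rw [one_mul] at hT1
  have hT2 : p.eval t ≤ 2 ^ t := (eval_mono p (Nat.le_succ t)).trans hT1
  have hLL : ∀ x : List Bool, x.length = t ∨ x.length = t + 1 → (x ∈ LL t (Or ω) ↔ x ∈ L) := by
    intro x _
    rw [h2 x, ← M.accIn_iff (h1 x)]
    simp only [LL, Set.mem_ofPred_eq, hb, hT1, hT2, true_and]
    rw [hu, he]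
  obtain ⟨m', hm1, hm2⟩ := two_pow_le_gale (by omega) hLL
  refine ⟨m', by omega, lt_of_lt_of_le ?_ hm2⟩
  have h3 : (c : ℝ) ≤ 2 ^ t := by
    have : c ≤ 2 ^ t := by
      have := Nat.lt_two_pow_self (n := t)
      omega
    exact_mod_cast this
  linarith

end Pool.Agent.Helper79K.DM
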