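import Pool.Agent.Helper79K.DM.Low5
import Pool.Agent.Helper79K.DM.Upper
import Pool.Agent.Helper79K.DM.GaleM

set_option autoImplicit false

namespace Pool.Agent.Helper79K.DM

open Pool.Agent.Helper76.Dim

open MeasureTheory Filter

open Classical in
/-- read off a number -/
noncomputable def dec (o : Option (List Bool)) : ℝ :=
  if h : ∃ q : ℚ, o = some (ratCode q) then max (h.choose : ℝ) 0 else 0

theorem dec_ratCode (q : ℚ) : dec (some (ratCode q)) = max (q : ℝ) 0 := by
  have h : ∃ q' : ℚ, some (ratCode q) = some (ratCode q') := ⟨q, rfl⟩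
  rw [dec, dif_pos h]
  have h1 := ratCode_injective (Option.some_injective _ h.choose_spec)
  rw [← h1]

theorem dec_nonneg (o : Option (List Bool)) : 0 ≤ dec o := by
  rw [dec]
  split_ifs
  · exact le_max_right _ _
  · exact le_rfl

/-- the decision trees of a machine which approximates a gale -/
noncomputable def FM (M : DTM) (p : Polynomial ℕ) (u : List Bool) : QT ℝ :=
  (M.qt (p.eval (3 * u.length + 2)) (Cfg.init M.k M.g M.n (inp (2 * u.length + 2) u))).map dec

theorem FM_nonneg (M : DTM) (p : Polynomial ℕ) : Nonneg (FM M p) := by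
  intro v ans h
  rw [FM, QT.run_map]
  exact dec_nonneg _

theorem FM_bdd (M : DTM) (p : Polynomial ℕ) (N : ℕ) (v : List Bool) (hv : v.length ≤ N) :
    (FM M p v).Bdd ((p.comp (3 * Polynomial.X + 2)).eval N) := by
  refine QT.Bdd.map ((M.qt_bdd _ _).mono ?_) _
  rw [Polynomial.eval_comp]
  refine eval_mono p ?_
  simp only [Polynomial.eval_add, Polynomial.eval_mul, Polynomial.eval_ofNat, Polynomial.eval_X]
  omega

theorem Nv_val {F : List Bool → QT ℝ} {ans : Ans} {g : List Bool → ℝ}
    (h : ∀ w hist, ((F w).run ans hist).1 = g w) (u : List Bool) :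
    (Nv F ans u).1 = g u.reverse := by
  cases u with
  | nil => exact h [] []
  | cons b u =>
    rw [Nv, List.reverse_cons]
    cases b
    · exact h _ _
    · exact h _ _

theorem rpow_le_rho {k : ℕ} {s : ℝ} (h : s ≤ 1 - 1 / (k + 1)) : (2 : ℝ) ^ s ≤ rho k :=
  Real.rpow_le_rpow_of_exponent_le (by norm_num) h

/-- A gale of index less than one which succeeds on `X` yields infinitely many passes. -/
theorem frequently_pass {k : ℕ} {A : Set (List Bool)} {s : ℝ} (hs : s ≤ 1 - 1 / (k + 1))
    {d : List Bool → ℝ}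
    (hd : IsGale s d) {M : DTM} {p : Polynomial ℕ} {f : ℕ → List Bool → ℚ}
    (h1 : ∀ r w, |(f r w : ℝ) - d w| ≤ 2 ^ (-(r : ℝ)))
    (h2 : ∀ r w, M.Outputs A (inp r w) (p.eval (r + w.length)) (ratCode (f r w)))
    {X : ℕ → Bool} (hX : Succeeds d X) : ∃ᶠ N in atTop, Pass k (FM M p) (orA A) X N := by
  set g : List Bool → ℝ := fun w => max (f (2 * w.length + 2) w : ℝ) 0 with hg
  have hrun : ∀ w hist, ((FM M p w).run (orA A) hist).1 = g w := by
    intro w hist
    rw [FM, QT.run_map]
    have h3 := h2 (2 * w.length + 2) w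
    have e : 2 * w.length + 2 + w.length = 3 * w.length + 2 := by ring
    rw [e] at h3
    have h4 := M.qt_of_outputs h3 hist
    show dec _ = _
    rw [h4, dec_ratCode]
  have happ : ∀ w, |g w - d w| ≤ (1 / 4) ^ w.length / 4 := by
    intro w
    have h3 := h1 (2 * w.length + 2) w
    have h4 : (2 : ℝ) ^ (-((2 * w.length + 2 : ℕ) : ℝ)) = (1 / 4) ^ w.length / 4 := by
      rw [← half_pow, pow_add, pow_mul]
      norm_num
      ring
    rw [h4] at h3
    have h5 := hd.1 w
    have h6 : d w = max (d w) 0 := (max_eq_left h5).symm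
    refine le_trans ?_ h3
    rw [hg]
    conv_lhs => rw [h6]
    exact abs_max_sub_max_le_abs _ _ _
  have hval : ∀ u, (Nv (FM M p) (orA A) u).1 = g u.reverse := Nv_val hrun
  obtain ⟨N0, hN0⟩ := exists_nat_ge (g [])
  have hok : ∀ i, ok k (FM M p) (orA A) (nd X i) := by
    intro i
    rw [ok, hval, hval, hval]
    set u := nd X i with hu
    have e1 : (false :: u).reverse = u.reverse ++ [false] := List.reverse_cons
    have e2 : (true :: u).reverse = u.reverse ++ [true] := List.reverse_cons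
    rw [e1, e2]
    have a1 := abs_le.1 (happ (u.reverse ++ [false]))
    have a2 := abs_le.1 (happ (u.reverse ++ [true]))
    have a3 := abs_le.1 (happ u.reverse)
    simp only [List.length_append, List.length_reverse, List.length_singleton, pow_succ] at a1 a2 a3
    have h3 : d (u.reverse ++ [false]) + d (u.reverse ++ [true]) = 2 ^ s * d u.reverse := by
      have h4 := hd.2 u.reverse
      rw [h4, ← mul_assoc, ← Real.rpow_add (by norm_num)]
      simp
    have h4 : (2 : ℝ) ^ s * d u.reverse ≤ rho k * d u.reverse :=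
      mul_le_mul_of_nonneg_right (rpow_le_rho hs) (hd.1 _)
    have h5 := rho_le k
    have h6 := one_le_rho k
    have h7 : (0 : ℝ) < (1 / 4) ^ u.length := by positivity
    have h8 : rho k * d u.reverse ≤ rho k * (g u.reverse + (1 / 4) ^ u.length / 4) :=
      mul_le_mul_of_nonneg_left (by linarith [a3.1]) (by linarith)
    have h9 : rho k * ((1 / 4) ^ u.length / 4) ≤ 2 * ((1 / 4) ^ u.length / 4) :=
      mul_le_mul_of_nonneg_right h5 (by linarith)
    linarith [a1.1, a1.2, a2.1, a2.2]
  rw [frequently_atTop]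
  intro a
  obtain ⟨m, hm1, hm2⟩ := hX 2 (max a N0)
  refine ⟨m, (le_max_left _ _).trans hm1, ?_, fun i _ => hok i, ?_⟩
  · rw [hval, List.reverse_nil]
    refine hN0.trans ?_
    exact_mod_cast (le_max_right _ _).trans hm1
  · rw [hval]
    have e : (nd X m).reverse = initSeg X m := by simp [nd]
    rw [e]
    have a1 := abs_le.1 (happ (initSeg X m))
    have h7 : (1 / 4 : ℝ) ^ (initSeg X m).length ≤ 1 := pow_le_one₀ (by norm_num) (by norm_num)
    linarith [a1.1]

theorem exists_good : ∃ ω : Om, ∀ (k : ℕ) (M : DTM) (p : Polynomial ℕ),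
    ¬ ∃ᶠ N in atTop, Pass k (FM M p) (orA (Or ω)) (XX ω) N := by
  have h1 : mu (⋃ q : ℕ × (DTM × Polynomial ℕ),
      {ω | ∃ᶠ N in atTop, Pass q.1 (FM q.2.1 q.2.2) (orA (Or ω)) (XX ω) N}) = 0 := by
    rw [measure_iUnion_null_iff]
    rintro ⟨k, M, p⟩
    exact null_pass k (FM_nonneg M p) _ (fun N v hv => FM_bdd M p N v hv)
  by_contra hc
  push Not at hc
  have h2 : (⋃ q : ℕ × (DTM × Polynomial ℕ),
      {ω | ∃ᶠ N in atTop, Pass q.1 (FM q.2.1 q.2.2) (orA (Or ω)) (XX ω) N}) = Set.univ := by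
    rw [Set.eq_univ_iff_forall]
    intro ω
    obtain ⟨k, M, p, h⟩ := hc ω
    exact Set.mem_iUnion.2 ⟨(k, (M, p)), h⟩
  rw [h2, measure_univ] at h1
  exact one_ne_zero h1

/-- There is an oracle relative to which `NP` has measure zero and dimension one. -/
theorem exists_dim : ∃ A : Set (List Bool),
    (∃ d, IsGale 1 d ∧ PComputable A d ∧ ∀ L ∈ NP A, Succeeds d (chi L)) ∧
      dimP A (NP A) = 1 := by
  obtain ⟨ω, hω⟩ := exists_good
  have hg : ∃ d, IsGale 1 d ∧ PComputable (Or ω) d ∧ ∀ L ∈ NP (Or ω), Succeeds d (chi L) :=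
    ⟨gale ω, gale_isGale ω, gale_computable ω, fun L hL => gale_succeeds ω hL⟩
  refine ⟨Or ω, hg, le_antisymm ?_ ?_⟩
  · exact csInf_le ⟨0, fun s hs => hs.1⟩ ⟨zero_le_one, hg⟩
  · refine le_csInf ⟨1, zero_le_one, hg⟩ ?_
    rintro s ⟨_, d, hd, ⟨M, p, f, h1, h2⟩, hsucc⟩
    by_contra hs
    rw [not_le] at hs
    obtain ⟨k, hk⟩ := exists_nat_one_div_lt (sub_pos.2 hs)
    have h3 := hsucc (RR ω) (RR_mem_NP ω)
    rw [chi_RR] at h3
    exact hω k M p (frequently_pass (by linarith) hd h1 h2 h3)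

end Pool.Agent.Helper79K.DM
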