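import Pool.Agent.Helper79K.DM.Orc

set_option autoImplicit false

namespace Pool.Agent.Helper79K.DM

open Pool.Agent.Helper76.Dim

open MeasureTheory

/-! ### Windows -/

theorem win_append_in {a m : ℕ} {w : List Bool} (b : Bool) (h1 : a ≤ w.length)
    (h2 : w.length < a + m) : ((w ++ [b]).drop a).take m = (w.drop a).take m ++ [b] := by
  rw [List.drop_append_of_le_length h1, List.take_of_length_le (by simp; omega),
    List.take_of_length_le (by simp; omega)]

theorem win_append_short {a m : ℕ} {w : List Bool} (b : Bool) (h1 : w.length < a) :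
    ((w ++ [b]).drop a).take m = (w.drop a).take m := by
  rw [List.drop_of_length_le (by simp; omega), List.drop_of_length_le (by omega)]

theorem win_append_long {a m : ℕ} {w : List Bool} (b : Bool) (h1 : a + m ≤ w.length) :
    ((w ++ [b]).drop a).take m = (w.drop a).take m := by
  rw [List.drop_append_of_le_length (by omega), List.take_append_of_le_length (by simp; omega)]

theorem two_pow_succ_sub (t : ℕ) : 2 ^ (t + 1) - 1 = 2 ^ t - 1 + 2 ^ t := by
  have h1 : 1 ≤ 2 ^ t := Nat.one_le_two_pow
  rw [pow_succ]
  omega

theorem tai_short {t : ℕ} {w : List Bool} (h : w.length ≤ 2 ^ (t + 1) - 1) : tai t w = [] := by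
  rw [tai, List.drop_of_length_le h, List.take_nil]

theorem length_por_le (t : ℕ) (w : List Bool) : (por t w).length ≤ 2 ^ t := by
  simp [por]

/-! ### The first martingale -/

theorem pr_nonneg (F : Fam) (t : ℕ) (u : List Bool) : 0 ≤ pr F t u := measureReal_nonneg

theorem aa_nonneg (F : Fam) (t : ℕ) (w : List Bool) : 0 ≤ aa F t w :=
  mul_nonneg (by positivity) (pr_nonneg _ _ _)

theorem isPrefix_split {u l : List Bool} (h : u.length < l.length) :
    u <+: l ↔ (u ++ [false] <+: l ∨ u ++ [true] <+: l) := by
  constructor
  · rintro ⟨v, rfl⟩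
    cases v with
    | nil => simp at h
    | cons b v =>
      cases b
      · exact Or.inl ⟨v, by simp⟩
      · exact Or.inr ⟨v, by simp⟩
  · rintro (h | h)
    · exact (List.prefix_append _ _).trans h
    · exact (List.prefix_append _ _).trans h

theorem not_both {u l : List Bool} (h1 : u ++ [false] <+: l) (h2 : u ++ [true] <+: l) : False := by
  have h3 := List.prefix_of_prefix_length_le h1 h2 (by simp)
  have h4 := h3.eq_of_length (by simp)
  simp at h4

theorem pr_split (t : ℕ) {u : List Bool} (h : u.length < 2 ^ t) :
    pr Or t (u ++ [false]) + pr Or t (u ++ [true]) = pr Or t u := by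
  rw [pr, pr, pr, ← measureReal_union]
  · congr 1
    ext ω
    simp only [Set.mem_union, Set.mem_ofPred_eq]
    exact (isPrefix_split (by rw [length_key]; exact h)).symm
  · rw [Set.disjoint_left]
    exact fun ω h1 h2 => not_both h1 h2
  · exact measurable_key t fun l => u ++ [true] <+: l

theorem aa_mart (t : ℕ) (w : List Bool) :
    aa Or t (w ++ [false]) + aa Or t (w ++ [true]) = 2 * aa Or t w := by
  rcases lt_or_ge w.length (2 ^ t - 1) with h1 | h1
  · rw [aa, aa, aa, por, por, por, win_append_short _ h1, win_append_short _ h1]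
    ring
  · rcases lt_or_ge w.length (2 ^ t - 1 + 2 ^ t) with h2 | h2
    · have h3 : (por t w).length < 2 ^ t := by
        simp only [por, List.length_take, List.length_drop]
        omega
      rw [aa, aa, aa, por, por, win_append_in _ h1 h2, win_append_in _ h1 h2, ← por,
        List.length_append, List.length_append, List.length_singleton, List.length_singleton,
        ← pr_split t h3]
      ring
    · rw [aa, aa, aa, por, por, por, win_append_long _ h2, win_append_long _ h2]
      ring

/-! ### The second martingale -/

theorem bb_nonneg (β : Option (List Bool)) (t : ℕ) (w : List Bool) : 0 ≤ bb β t w := by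
  unfold bb
  split
  · exact zero_le_one
  · split_ifs
    · positivity
    · exact le_rfl

theorem bb_short (β : Option (List Bool)) {t : ℕ} {w : List Bool}
    (h : w.length ≤ 2 ^ (t + 1) - 1) : bb β t w = 1 := by
  unfold bb
  split
  · rfl
  · rw [tai_short h]
    simp

theorem bb_mart_aux {α : List Bool} {t : ℕ} (hα : α.length = hh t) {w : List Bool}
    (h : 2 ^ (t + 1) - 1 ≤ w.length) :
    bb (some α) t (w ++ [false]) + bb (some α) t (w ++ [true]) = 2 * bb (some α) t w := by
  simp only [bb]
  rcases lt_or_ge w.length (2 ^ (t + 1) - 1 + hh t) with h2 | h2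
  · have h3 : (tai t w).length < hh t := by
      simp only [tai, List.length_take, List.length_drop]
      omega
    have e1 : tai t (w ++ [false]) = tai t w ++ [false] := win_append_in _ h h2
    have e2 : tai t (w ++ [true]) = tai t w ++ [true] := win_append_in _ h h2
    rw [e1, e2]
    have h4 := isPrefix_split (u := tai t w) (l := α) (by rw [hα]; exact h3)
    by_cases h5 : tai t w <+: α
    · rcases h4.1 h5 with h6 | h6
      · rw [if_pos h6, if_neg fun h7 => not_both h6 h7, if_pos h5]
        simp only [List.length_append, List.length_singleton]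
        ring
      · rw [if_pos h6, if_neg fun h7 => not_both h7 h6, if_pos h5]
        simp only [List.length_append, List.length_singleton]
        ring
    · rw [if_neg h5, if_neg fun h7 => h5 (h4.2 (Or.inl h7)),
        if_neg fun h7 => h5 (h4.2 (Or.inr h7))]
      ring
  · have e1 : tai t (w ++ [false]) = tai t w := win_append_long _ h2
    have e2 : tai t (w ++ [true]) = tai t w := win_append_long _ h2
    rw [e1, e2]
    ring

theorem unl_append (F : Fam) (ω : Om) {t : ℕ} {w : List Bool} (b : Bool)
    (h : 2 ^ (t + 1) - 1 ≤ w.length) : unl F ω (w ++ [b]) t = unl F ω w t := by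
  have e : por t (w ++ [b]) = por t w := win_append_long _ (by rwa [← two_pow_succ_sub])
  rw [unl, unl, e]

theorem bb_mart (ω : Om) (t : ℕ) (w : List Bool) :
    bb (unl Or ω (w ++ [false]) t) t (w ++ [false]) +
      bb (unl Or ω (w ++ [true]) t) t (w ++ [true]) = 2 * bb (unl Or ω w t) t w := by
  rcases lt_or_ge w.length (2 ^ (t + 1) - 1) with h | h
  · rw [bb_short _ (by simp; omega), bb_short _ (by simp; omega), bb_short _ h.le]
    norm_num
  · rw [unl_append _ _ _ h, unl_append _ _ _ h]
    rw [unl]
    split_ifs with h1
    · exact bb_mart_aux (length_adv _ _) h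
    · simp only [bb]
      norm_num

/-! ### The total martingale -/

/-- the martingale for the sample point `ω` -/
noncomputable def mm (ω : Om) (w : List Bool) : ℝ := MM Or (unl Or ω w) w

theorem lt_two_pow_succ (j : ℕ) : j < 2 ^ (j + 1) - 1 := by
  induction j with
  | zero => norm_num
  | succ j ih => rw [pow_succ]; omega

theorem mm_mart (ω : Om) (w : List Bool) :
    mm ω (w ++ [false]) + mm ω (w ++ [true]) = 2 * mm ω w := by
  set f : ℕ → ℝ := fun t => (aa Or t w + bb (unl Or ω w t) t w) / 2 with hf
  have h1 : mm ω w = ∑ t ∈ Finset.range (w.length + 1), (1 / 2) ^ (t + 1) * f t +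
      (1 / 2) ^ (w.length + 1) := rfl
  have h2 : mm ω (w ++ [false]) + mm ω (w ++ [true]) =
      ∑ t ∈ Finset.range (w.length + 2), (1 / 2) ^ (t + 1) * (2 * f t) +
      2 * (1 / 2) ^ (w.length + 2) := by
    simp only [mm, MM, List.length_append, List.length_singleton]
    have : ∀ t, (1 / 2 : ℝ) ^ (t + 1) * (2 * f t) =
        (1 / 2) ^ (t + 1) * ((aa Or t (w ++ [false]) +
          bb (unl Or ω (w ++ [false]) t) t (w ++ [false])) / 2) +
        (1 / 2) ^ (t + 1) * ((aa Or t (w ++ [true]) +
          bb (unl Or ω (w ++ [true]) t) t (w ++ [true])) / 2) := by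
      intro t
      have e1 := aa_mart t w
      have e2 := bb_mart ω t w
      have e3 : 2 * f t = (aa Or t (w ++ [false]) + aa Or t (w ++ [true]) +
        (bb (unl Or ω (w ++ [false]) t) t (w ++ [false]) +
          bb (unl Or ω (w ++ [true]) t) t (w ++ [true]))) / 2 := by
        rw [e1, e2, hf]
        ring
      rw [e3]
      ring
    simp only [this]
    rw [Finset.sum_add_distrib]
    ring
  have h3 : f (w.length + 1) = 1 := by
    have e1 : w.length < 2 ^ (w.length + 1) := (Nat.lt_succ_self _).trans Nat.lt_two_pow_self
    rw [hf]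
    show (aa Or (w.length + 1) w + bb (unl Or ω w (w.length + 1)) (w.length + 1) w) / 2 = 1
    rw [aa_short Or e1, bb_short]
    · norm_num
    · have := lt_two_pow_succ (w.length + 1)
      omega
  rw [h2, h1, Finset.sum_range_succ, h3]
  have h4 : ∑ t ∈ Finset.range (w.length + 1), (1 / 2 : ℝ) ^ (t + 1) * (2 * f t) =
      2 * ∑ t ∈ Finset.range (w.length + 1), (1 / 2 : ℝ) ^ (t + 1) * f t := by
    rw [Finset.mul_sum]
    exact Finset.sum_congr rfl fun t _ => by ring
  rw [h4]
  ring

theorem mm_nil (ω : Om) : mm ω [] = 1 := by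
  simp only [mm, MM, List.length_nil, zero_add, Finset.sum_range_one]
  rw [aa_short Or (by simp), bb_short _ (by simp)]
  norm_num

theorem MM_nonneg (F : Fam) (β : ℕ → Option (List Bool)) (w : List Bool) : 0 ≤ MM F β w := by
  refine add_nonneg (Finset.sum_nonneg fun t _ => ?_) (by positivity)
  have h1 := aa_nonneg F t w
  have h2 := bb_nonneg (β t) t w
  positivity

theorem mm_le (ω : Om) (w : List Bool) : mm ω w ≤ 2 ^ w.length := by
  induction w using List.reverseRecOn with
  | nil => rw [mm_nil]; simp
  | append_singleton w b ih =>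
    have h1 := mm_mart ω w
    have h2 : 0 ≤ mm ω (w ++ [false]) := MM_nonneg _ _ _
    have h3 : 0 ≤ mm ω (w ++ [true]) := MM_nonneg _ _ _
    rw [List.length_append, List.length_singleton, pow_succ]
    cases b <;> linarith

/-- the martingale for the sample point `ω`, as a gale -/
noncomputable def gale (ω : Om) (w : List Bool) : ℝ := mm ω w

theorem gale_isGale (ω : Om) : IsGale 1 (gale ω) := by
  refine ⟨fun w => MM_nonneg _ _ _, fun w => ?_⟩
  rw [gale, gale, gale, mm_mart, Real.rpow_neg (by norm_num), Real.rpow_one]
  ring

theorem gale_le (ω : Om) (w : List Bool) : gale ω w ≤ 2 ^ w.length := mm_le ω w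

end Pool.Agent.Helper79K.DM
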