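import Pool.Agent.Helper79K.DM.RM

set_option autoImplicit false

namespace Pool.Agent.Helper79K.DM

open Pool.Agent.Helper76.Dim

open MeasureTheory

/-! ### Values and histories along the tree -/

/-- The values at the nodes of the tree of all strings and the histories; a node is given by the
reversed string. The values of the two children of a node are computed together. -/
def Nv (F : List Bool → QT ℝ) (ans : Ans) : List Bool → ℝ × Hist
  | [] => (F []).run ans []
  | b :: u =>
    (if b = true then
      ((F (u.reverse ++ [true])).run ans ((F (u.reverse ++ [false])).run ans (Nv F ans u).2).2).1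
      else ((F (u.reverse ++ [false])).run ans (Nv F ans u).2).1,
    ((F (u.reverse ++ [true])).run ans ((F (u.reverse ++ [false])).run ans (Nv F ans u).2).2).2)

variable {F : List Bool → QT ℝ} {ans ans' : Ans}

theorem Nv_prefix (b : Bool) (u : List Bool) : (Nv F ans u).2 <+: (Nv F ans (b :: u)).2 :=
  (QT.run_hist _ _ _).trans (QT.run_hist _ _ _)

theorem Nv_congr (u : List Bool) (h : Cons ans' (Nv F ans u).2) :
    Nv F ans' u = Nv F ans u := by
  induction u with
  | nil => exact QT.run_congr _ _ h
  | cons b u ih =>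
    have h1 := ih (h.mono (Nv_prefix b u))
    have h2 : Cons ans' ((F (u.reverse ++ [false])).run ans (Nv F ans u).2).2 :=
      h.mono (QT.run_hist _ _ _)
    have h3 := QT.run_congr (F (u.reverse ++ [false])) (Nv F ans u).2 h2
    have h4 := QT.run_congr (F (u.reverse ++ [true]))
      ((F (u.reverse ++ [false])).run ans (Nv F ans u).2).2 h
    rw [Nv, Nv, h1, h3, h4]

theorem Nv_self (u : List Bool) : Cons ans (Nv F ans u).2 := by
  induction u with
  | nil => exact QT.run_cons _ _ fun h1 z b h2 e => by simp at e
  | cons b u ih => exact QT.run_cons _ _ (QT.run_cons _ _ ih)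

theorem Nv_length {T N : ℕ} (hF : ∀ v : List Bool, v.length ≤ N → (F v).Bdd T) (u : List Bool)
    (hu : u.length ≤ N) : (Nv F ans u).2.length ≤ (2 * u.length + 1) * T := by
  induction u with
  | nil =>
    have := QT.run_length ans (F []) [] (hF [] (Nat.zero_le _))
    simpa [Nv] using this
  | cons b u ih =>
    simp only [List.length_cons] at hu ⊢
    have h1 := ih (by omega)
    have h2 := QT.run_length ans (F (u.reverse ++ [false])) (Nv F ans u).2
      (hF _ (by simp; omega))
    have h3 := QT.run_length ans (F (u.reverse ++ [true]))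
      ((F (u.reverse ++ [false])).run ans (Nv F ans u).2).2 (hF _ (by simp; omega))
    show ((F (u.reverse ++ [true])).run ans
      ((F (u.reverse ++ [false])).run ans (Nv F ans u).2).2).2.length ≤ _
    nlinarith

/-- all values are nonnegative -/
def Nonneg (F : List Bool → QT ℝ) : Prop := ∀ v ans h, 0 ≤ ((F v).run ans h).1

theorem Nv_nonneg (hF : Nonneg F) (u : List Bool) : 0 ≤ (Nv F ans u).1 := by
  cases u with
  | nil => exact hF _ _ _
  | cons b u =>
    rw [Nv]
    cases b
    · exact hF _ _ _
    · exact hF _ _ _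

/-- the node number `i` along `X` -/
def nd (X : ℕ → Bool) (i : ℕ) : List Bool := (initSeg X i).reverse

theorem nd_zero (X : ℕ → Bool) : nd X 0 = [] := rfl

theorem nd_succ (X : ℕ → Bool) (i : ℕ) : nd X (i + 1) = X i :: nd X i := by
  simp [nd, initSeg_succ]

theorem length_nd (X : ℕ → Bool) (i : ℕ) : (nd X i).length = i := by simp [nd]

/-- the factor `2 ^ (1 - 1 / (k + 1))` -/
noncomputable def rho (k : ℕ) : ℝ := (2 : ℝ) ^ (1 - (1 : ℝ) / (k + 1))

theorem one_le_rho (k : ℕ) : 1 ≤ rho k := by
  refine Real.one_le_rpow (by norm_num) ?_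
  have h1 : (0 : ℝ) < k + 1 := by positivity
  rw [sub_nonneg, div_le_one h1]
  have : (0 : ℝ) ≤ k := Nat.cast_nonneg k
  linarith

theorem rho_le (k : ℕ) : rho k ≤ 2 := by
  have : rho k ≤ (2 : ℝ) ^ (1 : ℝ) := by
    refine Real.rpow_le_rpow_of_exponent_le (by norm_num) ?_
    have h1 : (0 : ℝ) ≤ 1 / (k + 1) := by positivity
    linarith
  rwa [Real.rpow_one] at this

/-- the local condition at a node -/
def ok (k : ℕ) (F : List Bool → QT ℝ) (ans : Ans) (u : List Bool) : Prop :=
  (Nv F ans (false :: u)).1 + (Nv F ans (true :: u)).1 ≤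
    rho k * (Nv F ans u).1 + (1 / 4) ^ u.length

/-- The values along `X` look like those of a gale and the value of node `N` is at least `1`. -/
def Pass (k : ℕ) (F : List Bool → QT ℝ) (ans : Ans) (X : ℕ → Bool) (N : ℕ) : Prop :=
  (Nv F ans []).1 ≤ N ∧ (∀ i < N, ok k F ans (nd X i)) ∧ 1 ≤ (Nv F ans (nd X N)).1

theorem hist_mono (X : ℕ → Bool) {i N : ℕ} (h : i ≤ N) :
    (Nv F ans (nd X i)).2 <+: (Nv F ans (nd X N)).2 := by
  induction N, h using Nat.le_induction with
  | base => exact List.prefix_rfl
  | succ N _ ih =>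
    rw [nd_succ]
    exact ih.trans (Nv_prefix _ _)

theorem hist_mono' (X : ℕ → Bool) {i N : ℕ} (h : i < N) (b : Bool) :
    (Nv F ans (b :: nd X i)).2 <+: (Nv F ans (nd X N)).2 := by
  have h1 := hist_mono (F := F) (ans := ans) X (Nat.succ_le_of_lt h)
  rw [Nat.succ_eq_add_one, nd_succ] at h1
  exact h1

theorem Pass.congr {κ : ℕ} {X : ℕ → Bool} {N : ℕ} (h : Pass κ F ans X N)
    (hc : Cons ans' (Nv F ans (nd X N)).2) : Pass κ F ans' X N := by
  have e : ∀ i ≤ N, Nv F ans' (nd X i) = Nv F ans (nd X i) := fun i hi =>
    Nv_congr _ (hc.mono (hist_mono X hi))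
  have e' : ∀ i < N, ∀ b, Nv F ans' (b :: nd X i) = Nv F ans (b :: nd X i) := fun i hi b =>
    Nv_congr _ (hc.mono (hist_mono' X hi b))
  obtain ⟨h1, h2, h3⟩ := h
  refine ⟨?_, fun i hi => ?_, ?_⟩
  · have := e 0 (Nat.zero_le _)
    rw [nd_zero] at this
    rw [this]
    exact h1
  · have := h2 i hi
    rw [ok] at this ⊢
    rw [e' i hi, e' i hi, e i hi.le]
    exact this
  · rw [e N le_rfl]
    exact h3

/-! ### The probability of passing -/

/-- the characteristic sequence of the hidden language -/
def XX (ω : Om) : ℕ → Bool := fun m => ω (m, 0)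

theorem mu_initSeg (N : ℕ) (w : List Bool) :
    mu.real {ω | initSeg (XX ω) N = w} ≤ (1 / 2) ^ N := by
  have h1 := mu_cyl ((Finset.range N).image fun i => (i, 0)) fun c => w.getD c.1 false
  rw [Finset.card_image_of_injective _ (fun a b h => by simpa using h), Finset.card_range] at h1
  rw [← h1]
  refine measureReal_mono fun ω hω => ?_
  have hω' : initSeg (XX ω) N = w := hω
  intro c hc
  simp only [Finset.mem_image, Finset.mem_range] at hc
  obtain ⟨i, hi, rfl⟩ := hc
  subst hω'
  simp [initSeg, XX, List.getD, hi]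

theorem mu_nd (u : List Bool) : mu.real {ω | nd (XX ω) u.length = u} ≤ (1 / 2) ^ u.length := by
  refine le_trans (measureReal_mono ?_) (mu_initSeg u.length u.reverse)
  intro ω h
  have h' : nd (XX ω) u.length = u := h
  show initSeg (XX ω) u.length = u.reverse
  conv_rhs => rw [← h']
  simp [nd]

theorem mu_ext (κ : ℕ) (hF : Nonneg F) (k : ℕ) (u : List Bool) :
    mu.real {ω | nd (XX ω) u.length = u ∧
      (∀ i, u.length ≤ i → i < u.length + k → ok κ F ans (nd (XX ω) i)) ∧
      1 ≤ (Nv F ans (nd (XX ω) (u.length + k))).1} ≤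
    (1 / 2) ^ (u.length + k) * rho κ ^ k * ((Nv F ans u).1 + 2 * (1 / 4) ^ u.length) := by
  induction k generalizing u with
  | zero =>
    have h0 := Nv_nonneg (ans := ans) hF u
    by_cases h1 : 1 ≤ (Nv F ans u).1
    · refine (measureReal_mono fun ω h => h.1).trans ((mu_nd u).trans ?_)
      rw [add_zero, pow_zero, mul_one]
      have : (0 : ℝ) ≤ 2 * (1 / 4) ^ u.length := by positivity
      exact le_mul_of_one_le_right (by positivity) (by linarith)
    · have h2 : {ω | nd (XX ω) u.length = u ∧
          (∀ i, u.length ≤ i → i < u.length + 0 → ok κ F ans (nd (XX ω) i)) ∧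
          1 ≤ (Nv F ans (nd (XX ω) (u.length + 0))).1} = ∅ := by
        ext ω
        simp only [Set.mem_ofPred_eq, Set.mem_empty_iff_false, iff_false]
        rintro ⟨h3, _, h4⟩
        rw [add_zero, h3] at h4
        exact h1 h4
      rw [h2, measureReal_empty]
      positivity
  | succ k ih =>
    have h0 := Nv_nonneg (ans := ans) hF u
    have hr := one_le_rho κ
    by_cases h1 : ok κ F ans u
    · have h2 : {ω | nd (XX ω) u.length = u ∧
          (∀ i, u.length ≤ i → i < u.length + (k + 1) → ok κ F ans (nd (XX ω) i)) ∧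
          1 ≤ (Nv F ans (nd (XX ω) (u.length + (k + 1)))).1} ⊆
        {ω | nd (XX ω) (false :: u).length = false :: u ∧
          (∀ i, (false :: u).length ≤ i → i < (false :: u).length + k → ok κ F ans (nd (XX ω) i)) ∧
          1 ≤ (Nv F ans (nd (XX ω) ((false :: u).length + k))).1} ∪
        {ω | nd (XX ω) (true :: u).length = true :: u ∧
          (∀ i, (true :: u).length ≤ i → i < (true :: u).length + k → ok κ F ans (nd (XX ω) i)) ∧
          1 ≤ (Nv F ans (nd (XX ω) ((true :: u).length + k))).1} := by
        rintro ω ⟨h3, h4, h5⟩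
        have e1 : ∀ b : Bool, (b :: u).length + k = u.length + (k + 1) := fun b => by
          simp only [List.length_cons]
          omega
        have e2 : nd (XX ω) (u.length + 1) = XX ω u.length :: u := by rw [nd_succ, h3]
        cases hb : XX ω u.length
        · left
          refine ⟨by rw [List.length_cons, e2, hb], fun i hi hi' => h4 i ?_ ?_, ?_⟩
          · simp only [List.length_cons] at hi; omega
          · rw [e1] at hi'; exact hi'
          · rw [e1]; exact h5
        · right
          refine ⟨by rw [List.length_cons, e2, hb], fun i hi hi' => h4 i ?_ ?_, ?_⟩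
          · simp only [List.length_cons] at hi; omega
          · rw [e1] at hi'; exact hi'
          · rw [e1]; exact h5
      refine (measureReal_mono h2).trans ((measureReal_union_le _ _).trans ?_)
      refine (add_le_add (ih (false :: u)) (ih (true :: u))).trans ?_
      simp only [List.length_cons]
      rw [ok] at h1
      have e3 : (1 / 2 : ℝ) ^ (u.length + 1 + k) = (1 / 2) ^ (u.length + (k + 1)) := by
        congr 1
        ring
      rw [e3, ← mul_add, mul_assoc, mul_assoc]
      refine mul_le_mul_of_nonneg_left ?_ (by positivity)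
      rw [pow_succ (rho κ) k, mul_assoc]
      refine mul_le_mul_of_nonneg_left ?_ (by positivity)
      have e4 : (1 / 4 : ℝ) ^ (u.length + 1) = (1 / 4) ^ u.length * (1 / 4) := pow_succ _ _
      have e5 : (0 : ℝ) ≤ (1 / 4) ^ u.length := by positivity
      rw [e4]
      nlinarith
    · have h2 : {ω | nd (XX ω) u.length = u ∧
          (∀ i, u.length ≤ i → i < u.length + (k + 1) → ok κ F ans (nd (XX ω) i)) ∧
          1 ≤ (Nv F ans (nd (XX ω) (u.length + (k + 1)))).1} = ∅ := by
        ext ω
        simp only [Set.mem_ofPred_eq, Set.mem_empty_iff_false, iff_false]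
        rintro ⟨h3, h4, _⟩
        have := h4 u.length le_rfl (by omega)
        rw [h3] at this
        exact h1 this
      rw [h2, measureReal_empty]
      positivity

theorem mu_pass (κ : ℕ) (hF : Nonneg F) (N : ℕ) :
    mu.real {ω | Pass κ F ans (XX ω) N} ≤ (1 / 2) ^ N * rho κ ^ N * (N + 2) := by
  by_cases h : (Nv F ans []).1 ≤ N
  · refine le_trans (measureReal_mono ?_) ((mu_ext (ans := ans) κ hF N []).trans ?_)
    · rintro ω ⟨_, h1, h2⟩
      refine ⟨rfl, fun i _ hi => h1 i (by simpa using hi), ?_⟩
      simpa using h2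
    · have hr := one_le_rho κ
      simp only [List.length_nil, zero_add, pow_zero, mul_one]
      gcongr
  · have h2 : {ω | Pass κ F ans (XX ω) N} = ∅ := by
      ext ω
      simp only [Set.mem_ofPred_eq, Set.mem_empty_iff_false, iff_false]
      exact fun h3 => h h3.1
    rw [h2, measureReal_empty]
    have hr := one_le_rho κ
    positivity

end Pool.Agent.Helper79K.DM
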