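import Pool.Agent.Helper79K.DM.Low1

set_option autoImplicit false

namespace Pool.Agent.Helper79K.DM

open Pool.Agent.Helper76.Dim

open MeasureTheory

open Classical in
/-- the unlocked advice, for scales below `τ` only -/
noncomputable def cen (τ : ℕ) (ω : Om) (w : List Bool) (t : ℕ) : Option (List Bool) :=
  if t < τ then unl Or ω w t else none

/-- the oracle in which the advice of the scales from `τ` on is never unlocked -/
noncomputable def OrC (τ : ℕ) (ω : Om) : Set (List Bool) := gen Or (cen τ ω) (Hid ω)

/-- the string a query to the table asks about -/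
noncomputable def wof (z : List Bool) : List Bool :=
  match kind z with
  | .tab _ w _ => w
  | _ => []

theorem wof_tab {z : List Bool} {r : ℕ} {w : List Bool} {j : ℕ} (h : kind z = .tab r w j) :
    wof z = w := by simp only [wof, h]

/-- Data describing the answers: the times `S` of the first hits, the times `qk t` at which the
advice of scale `t` is first unlocked, and the advice `al t`. -/
structure Desc : Type where
  /-- the times of the hits -/
  S : Finset ℕ
  /-- the times at which the advice is unlocked -/
  qk : ℕ → ℕ
  /-- the advice -/
  al : ℕ → List Bool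

/-- the query number `i` of the history `h` followed by the query `z` -/
def qry (h : Hist) (z : List Bool) (i : ℕ) : List Bool :=
  if hi : i < h.length then h[i].1 else z

open Classical in
/-- the advice which is unlocked, according to the description -/
noncomputable def bD (D : Desc) (τ : ℕ) (h : Hist) (z : List Bool) (t : ℕ) :
    Option (List Bool) :=
  if t < τ ∧ D.qk t ≤ h.length ∧ por t (wof (qry h z (D.qk t))) = por t (wof z) then some (D.al t)
    else none

open Classical in
/-- the answers according to the description -/
noncomputable def ansD (D : Desc) (τ : ℕ) : Ans := fun h z =>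
  match kind z with
  | .tab r w j => decide (Bit (out Or (bD D τ h z) r w) j)
  | .clk x y => decide (y.length < x.length ^ 2)
  | .hid _ _ => decide ((z, true) ∈ h ∨ h.length ∈ D.S)
  | .other => false

open Classical in
/-- the description of a history -/
noncomputable def desc (ω : Om) (H : Hist) : Desc where
  S := (Finset.range H.length).filter fun i =>
    ∃ x y : List Bool, H[i]? = some (encH x y true, true) ∧ (encH x y true, true) ∉ H.take i
  qk t := if h : ∃ i, i < H.length ∧ ∃ z b, H[i]? = some (z, b) ∧ unl Or ω (wof z) t ≠ none then
    Nat.find h else H.length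
  al t := adv (Or ω) t

open Classical in
theorem qk_le (ω : Om) (H : Hist) (t : ℕ) : (desc ω H).qk t ≤ H.length := by
  simp only [desc]
  split_ifs with h
  · exact (Nat.find_spec h).1.le
  · exact le_rfl

open Classical in
theorem qk_le_of {ω : Om} {H : Hist} {t i : ℕ} (hi : i < H.length) {z : List Bool} {b : Bool}
    (hz : H[i]? = some (z, b)) (hu : unl Or ω (wof z) t ≠ none) : (desc ω H).qk t ≤ i := by
  have h : ∃ i, i < H.length ∧ ∃ z b, H[i]? = some (z, b) ∧ unl Or ω (wof z) t ≠ none :=
    ⟨i, hi, z, b, hz, hu⟩
  simp only [desc, dif_pos h]
  exact Nat.find_le ⟨hi, z, b, hz, hu⟩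

open Classical in
theorem qk_spec {ω : Om} {H : Hist} {t : ℕ} (hi : (desc ω H).qk t < H.length) :
    ∃ z b, H[(desc ω H).qk t]? = some (z, b) ∧ unl Or ω (wof z) t ≠ none := by
  by_cases h : ∃ i, i < H.length ∧ ∃ z b, H[i]? = some (z, b) ∧ unl Or ω (wof z) t ≠ none
  · have e : (desc ω H).qk t = Nat.find h := by simp only [desc, dif_pos h]
    rw [e]
    exact (Nat.find_spec h).2
  · exfalso
    have e : (desc ω H).qk t = H.length := by simp only [desc, dif_neg h]
    omega

theorem unl_ne_none {ω : Om} {w : List Bool} {t : ℕ} (h : unl Or ω w t ≠ none) :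
    por t w = key (Or ω) t ∧ Imp Or t (por t w) := by
  rw [unl] at h
  by_contra hc
  rw [if_neg hc] at h
  exact h rfl

theorem unl_eq_some {ω : Om} {w : List Bool} {t : ℕ}
    (h : por t w = key (Or ω) t ∧ Imp Or t (por t w)) : unl Or ω w t = some (adv (Or ω) t) := by
  rw [unl, if_pos h]

/-- The description describes the history. -/
theorem cons_desc {τ : ℕ} {ω : Om} {H : Hist} (hH : Cons (orA (OrC τ ω)) H) :
    Cons (ansD (desc ω H) τ) H := by
  classical
  intro h1 z b h2 e
  have hb : b = decide (z ∈ OrC τ ω) := (hH h1 z b h2 e).symm
  have hlt : h1.length < H.length := by rw [e]; simp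
  have hget : H[h1.length]? = some (z, b) := by rw [e]; simp
  have htake : H.take h1.length = h1 := by rw [e]; simp
  have hpre : ∀ i, i < h1.length → H[i]? = h1[i]? := fun i hi => by
    rw [e, List.getElem?_append_left hi]
  cases hk : kind z with
  | tab r w j =>
    have hw : wof z = w := wof_tab hk
    have hβ : bD (desc ω H) τ h1 z = cen τ ω w := by
      funext t
      by_cases ht : t < τ
      · rw [cen, if_pos ht]
        by_cases hu : unl Or ω w t = none
        · rw [hu, bD, if_neg]
          rintro ⟨_, h3, h4⟩
          obtain ⟨z', b', h5, h6⟩ := qk_spec (ω := ω) (H := H) (t := t) (by omega)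
          have h7 : qry h1 z ((desc ω H).qk t) = z' := by
            rw [qry]
            split_ifs with h8
            · rw [hpre _ h8, List.getElem?_eq_getElem h8, Option.some.injEq] at h5
              rw [h5]
            · have h9 : (desc ω H).qk t = h1.length := by omega
              rw [h9, hget] at h5
              simp only [Option.some.injEq, Prod.mk.injEq] at h5
              exact h5.1
          rw [h7, hw] at h4
          have h8 := unl_ne_none h6
          rw [h4] at h8
          rw [unl_eq_some h8] at hu
          exact absurd hu (by simp)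
        · have h3 := unl_ne_none hu
          rw [unl_eq_some h3]
          have h4 : (desc ω H).qk t ≤ h1.length := qk_le_of hlt hget (by rw [hw]; exact hu)
          obtain ⟨z', b', h5, h6⟩ := qk_spec (ω := ω) (H := H) (t := t) (by omega)
          have h7 : qry h1 z ((desc ω H).qk t) = z' := by
            rw [qry]
            split_ifs with h8
            · rw [hpre _ h8, List.getElem?_eq_getElem h8, Option.some.injEq] at h5
              rw [h5]
            · have h9 : (desc ω H).qk t = h1.length := by omega
              rw [h9, hget] at h5
              simp only [Option.some.injEq, Prod.mk.injEq] at h5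
              exact h5.1
          have h8 := unl_ne_none h6
          rw [bD, if_pos ⟨ht, h4, by rw [h7, hw, h8.1, h3.1]⟩]
          rfl
      · rw [cen, if_neg ht, bD, if_neg fun h => ht h.1]
    simp only [ansD, hk, hβ]
    rw [hb]
    exact decide_eq_decide.2 (mem_gen_tab hk).symm
  | clk x y =>
    simp only [ansD, hk]
    rw [hb]
    exact decide_eq_decide.2 (mem_gen_clk hk).symm
  | hid x y =>
    simp only [ansD, hk]
    have hz := of_kind_hid hk
    cases b with
    | true =>
      rw [decide_eq_true_eq]
      by_cases h3 : (z, true) ∈ h1
      · exact Or.inl h3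
      · right
        simp only [desc, Finset.mem_filter, Finset.mem_range]
        refine ⟨hlt, x, y, ?_, ?_⟩
        · rw [hget, hz]
        · rw [htake, ← hz]
          exact h3
    | false =>
      rw [decide_eq_false_iff_not]
      rintro (h3 | h3)
      · obtain ⟨a, c, h4⟩ := List.append_of_mem h3
        have h5 := hH a z true (c ++ (z, false) :: h2) (by rw [e, h4]; simp)
        have h6 : decide (z ∈ OrC τ ω) = true := h5
        rw [← hb] at h6
        exact absurd h6 (by simp)
      · simp only [desc, Finset.mem_filter, Finset.mem_range] at h3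
        obtain ⟨_, x', y', h4, _⟩ := h3
        rw [hget] at h4
        simp at h4
  | other =>
    simp only [ansD, hk]
    rw [hb]
    exact (decide_eq_false (mem_gen_other hk)).symm

/-- the hits of a history are true hits -/
theorem hit_spec {τ : ℕ} {ω : Om} {H : Hist} (hH : Cons (orA (OrC τ ω)) H) {i : ℕ}
    (hi : i ∈ (desc ω H).S) : ∃ x y, H[i]? = some (encH x y true, true) ∧ y = wit ω x ∧
      (encH x y true, true) ∉ H.take i := by
  simp only [desc, Finset.mem_filter, Finset.mem_range] at hi
  obtain ⟨h1, x, y, h2, h3⟩ := hi
  refine ⟨x, y, h2, ?_, h3⟩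
  have h4 : H = H.take i ++ (encH x y true, true) :: H.drop (i + 1) := by
    have h5 : H[i] = (encH x y true, true) := by
      rw [List.getElem?_eq_getElem h1] at h2
      simpa using h2
    rw [← h5]
    rw [← List.drop_eq_getElem_cons h1, List.take_append_drop]
  have h5 := hH _ _ _ _ h4
  have h6 : encH x y true ∈ OrC τ ω := by simpa [orA] using h5
  exact ((mem_gen_hid (kind_hid x y)).1 h6).2

theorem hit_distinct {ω : Om} {H : Hist} {i j : ℕ} (hi : i ∈ (desc ω H).S)
    (hj : j ∈ (desc ω H).S) (hij : i < j) : H[i]? ≠ H[j]? := by
  intro h
  simp only [desc, Finset.mem_filter, Finset.mem_range] at hi hj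
  obtain ⟨h1, x, y, h2, h3⟩ := hj
  apply h3
  rw [← h] at h2
  rw [List.mem_take_iff_getElem]
  obtain ⟨h4, _⟩ := hi
  refine ⟨i, by omega, ?_⟩
  rw [List.getElem?_eq_getElem h4] at h2
  simpa using h2

end Pool.Agent.Helper79K.DM
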