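import Pool.Agent.Helper79K.DM.Low2

set_option autoImplicit false

namespace Pool.Agent.Helper79K.DM

open Pool.Agent.Helper76.Dim

open MeasureTheory

/-! ### Counting descriptions -/

/-- indices for the descriptions (without the times of the hits) -/
abbrev Ix (Q τ : ℕ) : Type := (Fin τ → Fin (Q + 1)) × ((t : Fin τ) → Fin (hh t) → Bool)

/-- the description with a given index -/
def toD {Q τ : ℕ} (S : Finset ℕ) (x : Ix Q τ) : Desc where
  S := S
  qk t := if h : t < τ then x.1 ⟨t, h⟩ else 0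
  al t := if h : t < τ then List.ofFn (x.2 ⟨t, h⟩) else []

theorem bD_congr {D D' : Desc} {τ : ℕ} (h1 : ∀ t < τ, D.qk t = D'.qk t)
    (h2 : ∀ t < τ, D.al t = D'.al t) : bD D τ = bD D' τ := by
  funext h z t
  by_cases ht : t < τ
  · rw [bD, bD, h1 t ht, h2 t ht]
  · rw [bD, bD, if_neg fun h => ht h.1, if_neg fun h => ht h.1]

theorem exists_ix {Q τ : ℕ} (ω : Om) (H : Hist) (hH : H.length ≤ Q) :
    ∃ x : Ix Q τ, ansD (toD (desc ω H).S x) τ = ansD (desc ω H) τ := by
  refine ⟨(fun t => ⟨(desc ω H).qk t, by have := qk_le ω H t; omega⟩,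
    fun t i => (adv (Or ω) t)[i.1]'(by rw [length_adv]; exact i.2)), ?_⟩
  have h : bD (toD (desc ω H).S (Q := Q) (τ := τ)
      (fun t => ⟨(desc ω H).qk t, by have := qk_le ω H t; omega⟩,
        fun t i => (adv (Or ω) t)[i.1]'(by rw [length_adv]; exact i.2))) τ =
      bD (desc ω H) τ := by
    refine bD_congr (fun t ht => ?_) (fun t ht => ?_)
    · simp only [toD, dif_pos ht]
    · simp only [toD, dif_pos ht]
      refine List.ext_getElem ?_ ?_
      · rw [List.length_ofFn]
        exact (length_adv _ _).symm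
      · intro i h1 h2
        rw [List.getElem_ofFn]
        rfl
  funext h' z
  rw [ansD, ansD, h]
  rfl

theorem sum_hh (τ : ℕ) : ∑ t ∈ Finset.range τ, hh t ≤ 4 * τ * τ := by
  have h1 : ∀ t ∈ Finset.range τ, hh t ≤ 4 * τ := by
    intro t ht
    rw [Finset.mem_range] at ht
    have : hh t ≤ 4 * t := min_le_left _ _
    omega
  have h2 := Finset.sum_le_card_nsmul _ _ _ h1
  rw [Finset.card_range, smul_eq_mul] at h2
  linarith [mul_comm τ (4 * τ)]

theorem half_le (t : ℕ) (ht : 1 ≤ t) : 2 ^ (t - 1) ≤ 2 ^ t - hh t := by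
  have h1 := hh_le_div t
  have h2 : 2 ^ t = 2 * 2 ^ (t - 1) := by
    obtain ⟨j, rfl⟩ := Nat.exists_eq_add_of_le ht
    rw [Nat.add_sub_cancel_left, pow_add, pow_one]
  omega

theorem card_ix (Q τ : ℕ) :
    Fintype.card (Ix Q τ) = (Q + 1) ^ τ * 2 ^ (∑ t ∈ Finset.range τ, hh t) := by
  rw [Fintype.card_prod, Fintype.card_pi_const, Fintype.card_fin, Fintype.card_pi]
  congr 1
  simp only [Fintype.card_pi_const, Fintype.card_bool]
  rw [Finset.prod_pow_eq_pow_sum, Finset.sum_range]

theorem sum_pow_card (Q : ℕ) (x : ℝ) :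
    ∑ S ∈ (Finset.range Q).powerset, x ^ S.card = (x + 1) ^ Q := by
  have := Finset.sum_pow_mul_eq_add_pow x 1 (Finset.range Q)
  simpa using this

theorem add_one_pow_le {Q : ℕ} {x : ℝ} (hx : 0 ≤ x) (h : Q * x ≤ 1) : (x + 1) ^ Q ≤ 3 := by
  calc (x + 1) ^ Q ≤ (Real.exp x) ^ Q := by
        gcongr
        exact Real.add_one_le_exp x
    _ = Real.exp (Q * x) := by rw [← Real.exp_nat_mul]
    _ ≤ Real.exp 1 := Real.exp_le_exp.2 h
    _ ≤ 3 := by
      have := Real.exp_one_lt_d9
      linarith

/-- the number of small sets -/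
theorem few_le {Q : ℕ} (hQ : 1 ≤ Q) (K : ℕ) :
    (((Finset.range Q).powerset.filter fun S => S.card ≤ K).card : ℝ) ≤ 3 * (Q : ℝ) ^ K := by
  have hQ' : (1 : ℝ) ≤ Q := by exact_mod_cast hQ
  have hQ0 : (0 : ℝ) < Q := by linarith
  have h1 : (((Finset.range Q).powerset.filter fun S => S.card ≤ K).card : ℝ) ≤
      ∑ S ∈ (Finset.range Q).powerset, (Q : ℝ) ^ K * (1 / Q) ^ S.card := by
    rw [Finset.card_eq_sum_ones, Nat.cast_sum, Finset.sum_filter]
    refine Finset.sum_le_sum fun S _ => ?_
    split_ifs with h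
    · have h2 : (Q : ℝ) ^ S.card ≤ (Q : ℝ) ^ K := pow_le_pow_right₀ hQ' h
      have h3 : (Q : ℝ) ^ S.card * (1 / Q) ^ S.card = 1 := by
        rw [← mul_pow]
        field_simp
        simp
      have h4 : (0 : ℝ) ≤ (1 / (Q : ℝ)) ^ S.card := by positivity
      rw [Nat.cast_one]
      calc (1 : ℝ) = (Q : ℝ) ^ S.card * (1 / Q) ^ S.card := h3.symm
        _ ≤ _ := by gcongr
    · positivity
  refine h1.trans ?_
  rw [← Finset.mul_sum, sum_pow_card, mul_comm]
  refine mul_le_mul_of_nonneg_right (add_one_pow_le (by positivity) ?_) (by positivity)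
  rw [mul_one_div_cancel hQ0.ne']

/-- the total weight of the large sets -/
theorem many_le {Q ν : ℕ} (hQ : Q ≤ 2 ^ ν) {K B : ℕ} (hK : 2 * B ≤ K) :
    ∑ S ∈ (Finset.range Q).powerset.filter (fun S => K < S.card),
      ((1 : ℝ) / 2) ^ (2 * ν * (S.card - B)) ≤ 3 * (1 / 2) ^ (ν * (K - 2 * B)) := by
  have h1 : ∑ S ∈ (Finset.range Q).powerset.filter (fun S => K < S.card),
      ((1 : ℝ) / 2) ^ (2 * ν * (S.card - B)) ≤
      ∑ S ∈ (Finset.range Q).powerset, ((1 : ℝ) / 2) ^ (ν * (K - 2 * B)) *
        ((1 / 2) ^ ν) ^ S.card := by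
    rw [Finset.sum_filter]
    refine Finset.sum_le_sum fun S _ => ?_
    split_ifs with h
    · rw [← pow_mul, ← pow_add]
      refine pow_le_pow_of_le_one (by norm_num) (by norm_num) ?_
      obtain ⟨a, ha⟩ := Nat.exists_eq_add_of_lt h
      obtain ⟨b, hb⟩ := Nat.exists_eq_add_of_le hK
      have e1 : S.card - B = B + b + a + 1 := by omega
      have e2 : K - 2 * B = b := by omega
      rw [e1, e2, ha, hb]
      nlinarith
    · positivity
  refine h1.trans ?_
  rw [← Finset.mul_sum, sum_pow_card, mul_comm]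
  refine mul_le_mul_of_nonneg_right (add_one_pow_le (by positivity) ?_) (by positivity)
  rw [one_div, inv_pow, ← div_eq_mul_inv, div_le_one (by positivity)]
  exact_mod_cast hQ

/-! ### The probability of unlocking advice -/

theorem mu_unl {τ : ℕ} (hτ : 1 ≤ τ) (v : List Bool) :
    mu.real {ω | ∃ t ≥ τ, por t v = key (Or ω) t ∧ Imp Or t (por t v)} ≤
      2 * (1 / 2) ^ (2 ^ (τ - 1)) := by
  have h1 : {ω | ∃ t ≥ τ, por t v = key (Or ω) t ∧ Imp Or t (por t v)} ⊆
      ⋃ k ∈ Finset.range (v.length + 1),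
        {ω | por (τ + k) v = key (Or ω) (τ + k) ∧ Imp Or (τ + k) (por (τ + k) v)} := by
    rintro ω ⟨t, ht, h2, h3⟩
    simp only [Set.mem_iUnion, Finset.mem_range, exists_prop]
    refine ⟨t - τ, ?_, ?_⟩
    · by_contra hc
      have h4 : v.length < 2 ^ t := by
        have := Nat.lt_two_pow_self (n := t)
        omega
      have h5 := congrArg List.length h2
      rw [por_short h4, length_key] at h5
      have h6 : 1 ≤ 2 ^ t := Nat.one_le_two_pow
      simp only [List.length_nil] at h5
      omega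
    · rw [Nat.add_sub_cancel' ht]
      exact ⟨h2, h3⟩
  refine (measureReal_mono h1 (measure_ne_top _ _)).trans
    ((measureReal_biUnion_finset_le _ _).trans ?_)
  have h2 : ∀ k ∈ Finset.range (v.length + 1),
      mu.real {ω | por (τ + k) v = key (Or ω) (τ + k) ∧ Imp Or (τ + k) (por (τ + k) v)} ≤
        (1 / 2) ^ (2 ^ (τ - 1)) * (1 / 2) ^ k := by
    intro k _
    by_cases hI : Imp Or (τ + k) (por (τ + k) v)
    · have h3 : mu.real {ω | por (τ + k) v = key (Or ω) (τ + k) ∧
          Imp Or (τ + k) (por (τ + k) v)} ≤ (1 / 2) ^ (2 ^ (τ + k - 1)) := by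
        refine le_trans (le_trans (measureReal_mono ?_) (le_of_lt hI)) ?_
        · rintro ω ⟨h4, _⟩
          exact h4.symm
        · exact pow_le_pow_of_le_one (by norm_num) (by norm_num) (half_le _ (by omega))
      refine h3.trans ?_
      rw [← pow_add]
      refine pow_le_pow_of_le_one (by norm_num) (by norm_num) ?_
      have e : τ + k - 1 = (τ - 1) + k := by omega
      rw [e, pow_add]
      have h5 : k < 2 ^ k := Nat.lt_two_pow_self
      have h6 : 1 ≤ 2 ^ (τ - 1) := Nat.one_le_two_pow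
      nlinarith
    · have h3 : {ω | por (τ + k) v = key (Or ω) (τ + k) ∧
          Imp Or (τ + k) (por (τ + k) v)} = ∅ := by
        ext ω
        simp only [Set.mem_ofPred_eq, Set.mem_empty_iff_false, iff_false]
        exact fun h => hI h.2
      rw [h3, measureReal_empty]
      positivity
  refine (Finset.sum_le_sum h2).trans ?_
  rw [← Finset.mul_sum, mul_comm]
  refine mul_le_mul_of_nonneg_right ?_ (by positivity)
  have h3 : Summable fun k : ℕ => ((1 : ℝ) / 2) ^ k := summable_geometric_two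
  have h4 := h3.sum_le_tsum (Finset.range (v.length + 1)) (fun _ _ => by positivity)
  rwa [tsum_geometric_two] at h4

/-! ### The probability of many hits -/

theorem mu_hits {m0 ν : ℕ} (hν : 2 * ν ≤ (m0 + 1) ^ 2) (S : Finset ℕ) (R : Hist)
    (u : List Bool) :
    mu.real {ω | nd (XX ω) u.length = u ∧ ∀ i ∈ S, ∃ x y,
      R[i]? = some (encH x y true, true) ∧ y = wit ω x ∧ (encH x y true, true) ∉ R.take i} ≤
    (1 / 2) ^ (u.length + 2 * ν * (S.card - 2 ^ (m0 + 1))) := by
  classical
  rcases Set.eq_empty_or_nonempty {ω | nd (XX ω) u.length = u ∧ ∀ i ∈ S, ∃ x y,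
      R[i]? = some (encH x y true, true) ∧ y = wit ω x ∧ (encH x y true, true) ∉ R.take i}
    with he | ⟨ω₀, h0, h1⟩
  · rw [he, measureReal_empty]
    positivity
  choose! x y h2 h3 h4 using h1
  have hinj : ∀ i ∈ S, ∀ j ∈ S, i < j → x i ≠ x j := by
    intro i hi j hj hij hx
    have hy : y i = y j := by rw [h3 i hi, h3 j hj, hx]
    refine h4 j hj ?_
    have h5 := h2 i hi
    rw [hx, hy] at h5
    have h6 : (R.take j)[i]? = some (encH (x j) (y j) true, true) := by
      rw [List.getElem?_take_of_lt hij, h5]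
    exact List.mem_of_getElem? h6
  have hinj' : Set.InjOn x (S : Set ℕ) := by
    intro i hi j hj hx
    rcases lt_trichotomy i j with h | h | h
    · exact absurd hx (hinj i hi j hj h)
    · exact h
    · exact absurd hx.symm (hinj j hj i hi h)
  set S' := S.filter fun i => m0 < (x i).length with hS'
  have hcard : S.card ≤ S'.card + 2 ^ (m0 + 1) := by
    rw [← Finset.card_filter_add_card_filter_not (s := S) (fun i => m0 < (x i).length)]
    refine Nat.add_le_add_left ?_ _
    rw [← Finset.card_range (2 ^ (m0 + 1))]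
    refine Finset.card_le_card_of_injOn (fun i => idx (x i)) ?_ ?_
    · intro i hi
      simp only [Finset.coe_filter, Set.mem_ofPred_eq, not_lt] at hi
      simp only [Finset.coe_range, Set.mem_Iio]
      have h5 := idx_lt (x i)
      have h6 : 2 ^ ((x i).length + 1) ≤ 2 ^ (m0 + 1) :=
        Nat.pow_le_pow_right (by norm_num) (by omega)
      omega
    · intro i hi j hj hij
      simp only [Finset.coe_filter, Set.mem_ofPred_eq] at hi hj
      exact hinj' hi.1 hj.1 (idx_injective hij)
  let f1 : ℕ → ℕ × ℕ := fun i => (i, 0)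
  let f2 : ℕ × ℕ → ℕ × ℕ := fun p => (idx (x p.1), p.2 + 1)
  have hf1 : Function.Injective f1 := fun a b h => by simpa [f1] using h
  have hf2 : Set.InjOn f2 ((S' ×ˢ Finset.range (2 * ν) : Finset (ℕ × ℕ)) : Set (ℕ × ℕ)) := by
    rintro ⟨i, a⟩ hi ⟨j, b⟩ hj h
    simp only [Finset.coe_product, Set.mem_prod, Finset.mem_coe, hS', Finset.mem_filter] at hi hj
    simp only [f2, Prod.mk.injEq, add_left_inj] at h
    rw [hinj' hi.1.1 hj.1.1 (idx_injective h.1), h.2]
  set C := (Finset.range u.length).image f1 ∪ (S' ×ˢ Finset.range (2 * ν)).image f2 with hC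
  have hCcard : C.card = u.length + S'.card * (2 * ν) := by
    rw [hC, Finset.card_union_of_disjoint, Finset.card_image_of_injective _ hf1,
      Finset.card_image_of_injOn hf2, Finset.card_range, Finset.card_product, Finset.card_range]
    rw [Finset.disjoint_left]
    intro c hc hc'
    simp only [Finset.mem_image, f1, f2] at hc hc'
    obtain ⟨i, _, rfl⟩ := hc
    obtain ⟨p, _, hp⟩ := hc'
    simp at hp
  have hsub : {ω | nd (XX ω) u.length = u ∧ ∀ i ∈ S, ∃ x y,
      R[i]? = some (encH x y true, true) ∧ y = wit ω x ∧ (encH x y true, true) ∉ R.take i} ⊆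
      {ω | ∀ c ∈ C, ω c = ω₀ c} := by
    rintro ω ⟨h5, h6⟩ c hc
    rw [hC, Finset.mem_union] at hc
    rcases hc with hc | hc
    · simp only [Finset.mem_image, Finset.mem_range, f1] at hc
      obtain ⟨i, hi, rfl⟩ := hc
      have h7 : initSeg (XX ω) u.length = initSeg (XX ω₀) u.length := by
        have : nd (XX ω) u.length = nd (XX ω₀) u.length := by rw [h5, h0]
        simpa [nd] using this
      have h8 := congrArg (fun l => l[i]?) h7
      simpa [initSeg, XX, hi] using h8
    · simp only [Finset.mem_image, Finset.mem_product, Finset.mem_range, f2, hS',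
        Finset.mem_filter] at hc
      obtain ⟨⟨i, j⟩, ⟨⟨hi1, hi2⟩, hj⟩, rfl⟩ := hc
      obtain ⟨x', y', h7, h8, _⟩ := h6 i hi1
      rw [h2 i hi1] at h7
      simp only [Option.some.injEq, Prod.mk.injEq, and_true] at h7
      obtain ⟨h9, h10, _⟩ := encH_inj h7
      have h11 : wit ω (x i) = wit ω₀ (x i) := by
        rw [← h3 i hi1, h10, h8, ← h9]
      have h12 : j < (x i).length ^ 2 := by
        have hi2' : m0 < (x i).length := hi2
        have : (m0 + 1) ^ 2 ≤ (x i).length ^ 2 := Nat.pow_le_pow_left (by omega) 2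
        simp only at hj
        omega
      have h13 := congrArg (fun l => l[j]?) h11
      simpa [wit, h12] using h13
  refine (measureReal_mono hsub).trans ?_
  rw [mu_cyl, hCcard]
  refine pow_le_pow_of_le_one (by norm_num) (by norm_num) ?_
  have h5 : S.card - 2 ^ (m0 + 1) ≤ S'.card := by omega
  have h6 := Nat.mul_le_mul_left (2 * ν) h5
  linarith [mul_comm (2 * ν) S'.card]

end Pool.Agent.Helper79K.DM
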