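import Pool.Agent.Helper79K.DM.Low3

set_option autoImplicit false

namespace Pool.Agent.Helper79K.DM

open Pool.Agent.Helper76.Dim

open MeasureTheory

/-- If an answer changes when the later advice is censored, some late advice was unlocked. -/
theorem late_of_ne {τ : ℕ} {ω : Om} {z : List Bool} (h : ¬ (z ∈ OrC τ ω ↔ z ∈ Or ω)) :
    ∃ t ≥ τ, por t (wof z) = key (Or ω) t ∧ Imp Or t (por t (wof z)) := by
  by_contra hc
  push Not at hc
  apply h
  rw [mem_Or, OrC]
  cases hk : kind z with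
  | tab r w j =>
    have hw : wof z = w := wof_tab hk
    have h1 : cen τ ω w = unl Or ω w := by
      funext t
      by_cases ht : t < τ
      · rw [cen, if_pos ht]
      · rw [cen, if_neg ht, unl, if_neg]
        rintro ⟨h2, h3⟩
        rw [← hw] at h2 h3
        exact hc t (by omega) h2 h3
    rw [mem_gen_tab hk, mem_gen_tab hk, h1]
  | clk x y => rw [mem_gen_clk hk, mem_gen_clk hk]
  | hid x y => rw [mem_gen_hid hk, mem_gen_hid hk]
  | other => exact iff_of_false (mem_gen_other hk) (mem_gen_other hk)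

theorem cons_orA {A : Set (List Bool)} {ans : Ans} {H : Hist} (hH : Cons ans H)
    (h : ∀ h1 z b h2, H = h1 ++ (z, b) :: h2 → (ans h1 z = true ↔ z ∈ A)) : Cons (orA A) H := by
  intro h1 z b h2 e
  have h3 := h h1 z b h2 e
  have h4 := hH h1 z b h2 e
  rw [orA, ← h4]
  cases h5 : ans h1 z
  · rw [h5] at h3
    simpa using h3
  · rw [h5] at h3
    simpa using h3

/-- the small sets of times -/
def few (Q K : ℕ) : Finset (Finset ℕ) := (Finset.range Q).powerset.filter fun S => S.card ≤ K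

/-- the large sets of times -/
def many (Q K : ℕ) : Finset (Finset ℕ) := (Finset.range Q).powerset.filter fun S => K < S.card

/-- the history determined by a description and a node -/
noncomputable def RH (F : List Bool → QT ℝ) {Q τ : ℕ} (S : Finset ℕ) (x : Ix Q τ)
    (u : List Bool) : Hist := (Nv F (ansD (toD S x) τ) u).2

/-- first event -/
def E1 (κ : ℕ) (F : List Bool → QT ℝ) (N : ℕ) {Q τ : ℕ} (p : Finset ℕ × Ix Q τ) : Set Om :=
  {ω | Pass κ F (ansD (toD p.1 p.2) τ) (XX ω) N}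

/-- second event -/
def E2 (F : List Bool → QT ℝ) {N Q τ : ℕ} (p : Finset ℕ × (Ix Q τ × (Fin N → Bool))) : Set Om :=
  {ω | nd (XX ω) (List.ofFn p.2.2).length = List.ofFn p.2.2 ∧ ∀ i ∈ p.1, ∃ x y,
      (RH F p.1 p.2.1 (List.ofFn p.2.2))[i]? = some (encH x y true, true) ∧ y = wit ω x ∧
        (encH x y true, true) ∉ (RH F p.1 p.2.1 (List.ofFn p.2.2)).take i}

/-- third event -/
def E3 (F : List Bool → QT ℝ) {N Q τ : ℕ} (p : Finset ℕ × ((Ix Q τ × (Fin N → Bool)) × ℕ)) :
    Set Om :=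
  {ω | ∃ t ≥ τ,
    por t (wof ((RH F p.1 p.2.1.1 (List.ofFn p.2.1.2)).getD p.2.2 ([], false)).1) =
      key (Or ω) t ∧
    Imp Or t (por t (wof ((RH F p.1 p.2.1.1 (List.ofFn p.2.1.2)).getD p.2.2 ([], false)).1))}

theorem pass_subset (κ : ℕ) {F : List Bool → QT ℝ} {N Q : ℕ} (τ K : ℕ)
    (hQ : ∀ ans u, u.length ≤ N → (Nv F ans u).2.length ≤ Q) :
    {ω | Pass κ F (orA (Or ω)) (XX ω) N} ⊆
      (⋃ p ∈ few Q K ×ˢ (Finset.univ : Finset (Ix Q τ)), E1 κ F N p) ∪
      ((⋃ p ∈ many Q K ×ˢ (Finset.univ : Finset (Ix Q τ × (Fin N → Bool))), E2 F p) ∪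
      (⋃ p ∈ few Q K ×ˢ ((Finset.univ : Finset (Ix Q τ × (Fin N → Bool))) ×ˢ Finset.range Q),
        E3 F p)) := by
  classical
  intro ω hω
  have hω' : Pass κ F (orA (Or ω)) (XX ω) N := hω
  set H := (Nv F (orA (OrC τ ω)) (nd (XX ω) N)).2 with hH
  have hHlen : H.length ≤ Q := hQ _ _ (by rw [length_nd])
  have hcons : Cons (orA (OrC τ ω)) H := Nv_self _
  obtain ⟨x, hx⟩ := exists_ix (Q := Q) (τ := τ) ω H hHlen
  have hconsD : Cons (ansD (toD (desc ω H).S x) τ) H := by
    rw [hx]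
    exact cons_desc hcons
  have hSsub : (desc ω H).S ∈ (Finset.range Q).powerset := by
    rw [Finset.mem_powerset]
    refine (Finset.filter_subset _ _).trans (Finset.range_mono hHlen)
  obtain ⟨f, hf⟩ : ∃ f : Fin N → Bool, List.ofFn f = nd (XX ω) N := by
    refine ⟨fun i => (nd (XX ω) N)[i.1]'(by rw [length_nd]; exact i.2), ?_⟩
    refine List.ext_getElem (by rw [List.length_ofFn, length_nd]) ?_
    intro i h1 h2
    rw [List.getElem_ofFn]
  have hR : RH F (desc ω H).S x (List.ofFn f) = H := by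
    rw [RH, hf, Nv_congr (F := F) (nd (XX ω) N) hconsD]
  by_cases hK : (desc ω H).S.card ≤ K
  · have hfew : (desc ω H).S ∈ few Q K := by
      rw [few, Finset.mem_filter]
      exact ⟨hSsub, hK⟩
    by_cases hall : ∀ h1 z b h2, H = h1 ++ (z, b) :: h2 → (z ∈ OrC τ ω ↔ z ∈ Or ω)
    · left
      simp only [Set.mem_iUnion]
      refine ⟨((desc ω H).S, x), ?_, ?_⟩
      · rw [Finset.mem_product]
        exact ⟨hfew, Finset.mem_univ _⟩
      · have h1 : Cons (orA (Or ω)) H := by
          refine cons_orA hcons fun h1 z b h2 e => ?_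
          rw [← hall h1 z b h2 e]
          simp [orA]
        have h2 := Nv_congr (F := F) (nd (XX ω) N) h1
        refine hω'.congr ?_
        rw [h2]
        exact hconsD
    · right
      right
      push Not at hall
      obtain ⟨h1, z, b, h2, e, hne⟩ := hall
      have hne' : ¬ (z ∈ OrC τ ω ↔ z ∈ Or ω) := by
        rcases hne with ⟨h3, h4⟩ | ⟨h3, h4⟩
        · exact fun h => h4 (h.1 h3)
        · exact fun h => h3 (h.2 h4)
      simp only [Set.mem_iUnion]
      refine ⟨((desc ω H).S, ((x, f), h1.length)), ?_, ?_⟩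
      · simp only [Finset.mem_product, Finset.mem_univ, true_and, Finset.mem_range]
        refine ⟨hfew, ?_⟩
        have : H.length = h1.length + (h2.length + 1) := by rw [e]; simp
        omega
      · show ∃ t ≥ τ, _
        simp only [hR]
        have h3 : (H.getD h1.length ([], false)).1 = z := by
          rw [List.getD_eq_getElem?_getD, e]
          simp
        rw [h3]
        exact late_of_ne hne'
  · right
    left
    simp only [Set.mem_iUnion]
    refine ⟨((desc ω H).S, (x, f)), ?_, ?_⟩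
    · simp only [Finset.mem_product, Finset.mem_univ, and_true]
      rw [many, Finset.mem_filter]
      exact ⟨hSsub, by omega⟩
    · show _ ∧ ∀ i ∈ (desc ω H).S, _
      simp only [hR, List.length_ofFn]
      exact ⟨hf.symm, fun i hi => hit_spec hcons hi⟩

theorem mu_pass_le (κ : ℕ) {F : List Bool → QT ℝ} (hF : Nonneg F) {N Q τ K ν m0 : ℕ}
    (hQ : ∀ ans u, u.length ≤ N → (Nv F ans u).2.length ≤ Q) (hQ1 : 1 ≤ Q) (hQν : Q ≤ 2 ^ ν)
    (hτ : 1 ≤ τ) (hν : 2 * ν ≤ (m0 + 1) ^ 2) (hK : 2 * 2 ^ (m0 + 1) ≤ K) :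
    mu.real {ω | Pass κ F (orA (Or ω)) (XX ω) N} ≤
      3 * (Q : ℝ) ^ K * Fintype.card (Ix Q τ) * ((1 / 2) ^ N * rho κ ^ N * (N + 2)) +
      (3 * Fintype.card (Ix Q τ) * (1 / 2) ^ (ν * (K - 2 * 2 ^ (m0 + 1))) +
      3 * (Q : ℝ) ^ K * Fintype.card (Ix Q τ) * 2 ^ N * Q * (2 * (1 / 2) ^ (2 ^ (τ - 1)))) := by
  classical
  refine (measureReal_mono (pass_subset κ τ K hQ) (measure_ne_top _ _)).trans ?_
  refine (measureReal_union_le _ _).trans (add_le_add ?_ ((measureReal_union_le _ _).trans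
    (add_le_add ?_ ?_)))
  · refine (measureReal_biUnion_finset_le _ _).trans ?_
    refine (Finset.sum_le_sum fun p _ => mu_pass (ans := ansD (toD p.1 p.2) τ) κ hF N).trans ?_
    rw [Finset.sum_const, Finset.card_product, nsmul_eq_mul, Finset.card_univ]
    have h1 := few_le hQ1 K
    have h2 := one_le_rho κ
    push_cast
    refine mul_le_mul_of_nonneg_right ?_ (by positivity)
    exact mul_le_mul_of_nonneg_right h1 (by positivity)
  · refine (measureReal_biUnion_finset_le _ _).trans ?_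
    have h1 : ∀ p ∈ many Q K ×ˢ (Finset.univ : Finset (Ix Q τ × (Fin N → Bool))),
        mu.real (E2 F p) ≤ (1 / 2) ^ N * (1 / 2) ^ (2 * ν * (p.1.card - 2 ^ (m0 + 1))) := by
      intro p _
      have := mu_hits hν p.1 (RH F p.1 p.2.1 (List.ofFn p.2.2)) (List.ofFn p.2.2)
      exact this.trans (le_of_eq (by rw [List.length_ofFn, pow_add]))
    refine (Finset.sum_le_sum h1).trans ?_
    rw [Finset.sum_product]
    simp only [Finset.sum_const, nsmul_eq_mul]
    rw [← Finset.mul_sum, ← Finset.mul_sum, Finset.card_univ, Fintype.card_prod]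
    have h2 := many_le hQν hK
    have h3 : (Fintype.card (Fin N → Bool) : ℝ) = 2 ^ N := by simp
    have h4 : (2 : ℝ) ^ N * (1 / 2) ^ N = 1 := by
      rw [← mul_pow]
      norm_num
    push_cast
    calc (Fintype.card (Ix Q τ) : ℝ) * (Fintype.card (Fin N → Bool) : ℝ) * ((1 / 2) ^ N *
          ∑ i ∈ many Q K, (1 / 2) ^ (2 * ν * (i.card - 2 ^ (m0 + 1)))) =
        (Fintype.card (Ix Q τ) : ℝ) * ((2 : ℝ) ^ N * (1 / 2) ^ N) *
          ∑ i ∈ many Q K, (1 / 2) ^ (2 * ν * (i.card - 2 ^ (m0 + 1))) := by rw [h3]; ring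
      _ = (Fintype.card (Ix Q τ) : ℝ) *
          ∑ i ∈ many Q K, (1 / 2) ^ (2 * ν * (i.card - 2 ^ (m0 + 1))) := by rw [h4, mul_one]
      _ ≤ (Fintype.card (Ix Q τ) : ℝ) * (3 * (1 / 2) ^ (ν * (K - 2 * 2 ^ (m0 + 1)))) := by
        refine mul_le_mul_of_nonneg_left h2 (by positivity)
      _ = _ := by ring
  · refine (measureReal_biUnion_finset_le _ _).trans ?_
    refine (Finset.sum_le_sum fun p _ => mu_unl hτ _).trans ?_
    rw [Finset.sum_const, Finset.card_product, Finset.card_product, nsmul_eq_mul,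
      Finset.card_univ, Finset.card_range, Fintype.card_prod]
    have h1 := few_le hQ1 K
    have h3 : (Fintype.card (Fin N → Bool) : ℝ) = 2 ^ N := by simp
    push_cast
    rw [h3]
    refine mul_le_mul_of_nonneg_right ?_ (by positivity)
    calc ((few Q K).card : ℝ) * ((Fintype.card (Ix Q τ) : ℝ) * 2 ^ N * Q) ≤
        (3 * (Q : ℝ) ^ K) * ((Fintype.card (Ix Q τ) : ℝ) * 2 ^ N * Q) :=
          mul_le_mul_of_nonneg_right h1 (by positivity)
      _ = _ := by ring

end Pool.Agent.Helper79K.DM
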