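import Pool.Agent.Helper79K.DM.Low4

set_option autoImplicit false

namespace Pool.Agent.Helper79K.DM

open Pool.Agent.Helper76.Dim

open MeasureTheory Filter

theorem two_rpow_nat (a : ℕ) : (2 : ℝ) ^ (a : ℕ) = (2 : ℝ) ^ (a : ℝ) := (Real.rpow_natCast 2 a).symm

theorem half_pow (a : ℕ) : ((1 : ℝ) / 2) ^ (a : ℕ) = (2 : ℝ) ^ (-(a : ℝ)) := by
  rw [one_div, inv_pow, Real.rpow_neg (by norm_num), Real.rpow_natCast]

theorem rho_pow (k N : ℕ) : rho k ^ N = (2 : ℝ) ^ ((N : ℝ) - N / (k + 1)) := by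
  rw [rho, ← Real.rpow_natCast, ← Real.rpow_mul (by norm_num)]
  congr 1
  ring

theorem card_ix_le (κ c n : ℕ) :
    ∃ a : ℕ, (Fintype.card (Ix (2 ^ (c * n)) (n + 4)) : ℝ) ≤ (2 : ℝ) ^ (a : ℝ) ∧
      (32 * κ * ((c * n + 1) * (n + 4)) ≤ 2 ^ n → 32 * κ * (4 * (n + 4) * (n + 4)) ≤ 2 ^ n →
        16 * κ * a ≤ 2 ^ n) := by
  refine ⟨(c * n + 1) * (n + 4) + ∑ t ∈ Finset.range (n + 4), hh t, ?_, ?_⟩
  · rw [card_ix, ← two_rpow_nat, pow_add (2 : ℝ) ((c * n + 1) * (n + 4))]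
    push_cast
    have h0 : (2 : ℝ) ^ ((c * n + 1) * (n + 4)) = ((2 : ℝ) ^ (c * n + 1)) ^ (n + 4) := pow_mul _ _ _
    have h1 : (2 : ℝ) ^ (c * n) + 1 ≤ (2 : ℝ) ^ (c * n + 1) := by
      rw [pow_succ]
      have : (1 : ℝ) ≤ 2 ^ (c * n) := one_le_pow₀ (by norm_num)
      linarith
    rw [h0]
    gcongr
  · intro h h'
    have h1 := Nat.mul_le_mul_left (32 * κ) (sum_hh (n + 4))
    have h2 : 16 * κ * ((c * n + 1) * (n + 4) + ∑ t ∈ Finset.range (n + 4), hh t) * 2 =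
        32 * κ * ((c * n + 1) * (n + 4)) + 32 * κ * ∑ t ∈ Finset.range (n + 4), hh t := by ring
    omega

theorem pass_bound (k : ℕ) {F : List Bool → QT ℝ} (hF : Nonneg F) {N n c : ℕ} (hn : 2 ^ n ≤ N)
    (hn' : N < 2 ^ (n + 1)) (hc : 1 ≤ c) (hn1 : 1 ≤ n)
    (hQ : ∀ ans u, u.length ≤ N → (Nv F ans u).2.length ≤ 2 ^ (c * n))
    (i1 : 640 * ((k + 1) * c * n) ≤ (n / 2 + 1) ^ 2)
    (i2 : 64 * ((k + 1) * c * n) * (1 + 2 * 2 ^ (n / 2 + 1)) ≤ 2 ^ n)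
    (i3 : 32 * (k + 1) * ((c * n + 1) * (n + 4)) ≤ 2 ^ n)
    (i4 : 32 * (k + 1) * (4 * (n + 4) * (n + 4)) ≤ 2 ^ n) :
    mu.real {ω | Pass k F (orA (Or ω)) (XX ω) N} ≤
      12 * ((N : ℝ) + 2) * (2 : ℝ) ^ (-((N : ℝ) / (2 * (k + 1)))) := by
  have hcn : 1 ≤ c * n := Nat.one_le_iff_ne_zero.2 (by positivity)
  set C := (k + 1) * c * n with hC
  have hCe : C = (k + 1) * (c * n) := by rw [hC]; ring
  have hCc : c * n ≤ C := by rw [hCe]; exact Nat.le_mul_of_pos_left _ (Nat.succ_pos k)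
  set ν := 320 * C with hν
  set B := 2 ^ (n / 2 + 1) with hB
  obtain ⟨d, hd⟩ : ∃ d, d = 5 * 2 ^ n / ν := ⟨_, rfl⟩
  set K := d + 1 + 2 * B with hK
  have h1 := mu_pass_le k hF (N := N) (Q := 2 ^ (c * n)) (τ := n + 4) (K := K) (ν := ν)
    (m0 := n / 2) hQ Nat.one_le_two_pow (Nat.pow_le_pow_right (by norm_num) (by omega))
    (by omega) (by omega) (by omega)
  obtain ⟨a, ha1, ha2⟩ := card_ix_le (k + 1) c n
  have ha3 := ha2 i3 i4
  have hKn : 32 * (C * K) ≤ 2 ^ n := by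
    have h2 : ν * d ≤ 5 * 2 ^ n := by
      rw [hd]
      exact Nat.mul_div_le _ _
    have h3 : C * K = C * d + C * (1 + 2 * B) := by rw [hK]; ring
    have h4 : 320 * (C * d) ≤ 5 * 2 ^ n := by
      rw [hν] at h2
      linarith [mul_assoc 320 C d]
    have h5 : 64 * (C * (1 + 2 * B)) ≤ 2 ^ n := by
      linarith [mul_assoc 64 C (1 + 2 * B)]
    rw [h3]
    omega
  have hνK : 5 * 2 ^ n ≤ ν * (K - 2 * B) := by
    have h2 : K - 2 * B = d + 1 := by omega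
    rw [h2]
    have h3 := Nat.div_add_mod (5 * 2 ^ n) ν
    have h4 : 5 * 2 ^ n % ν < ν := Nat.mod_lt _ (by omega)
    rw [← hd] at h3
    rw [mul_add, mul_one]
    omega
  -- real versions
  have hE1 : (2 : ℝ) ^ n ≤ N := by exact_mod_cast hn
  have hE2 : (N : ℝ) < 2 * 2 ^ n := by
    have : (N : ℝ) < ((2 ^ (n + 1) : ℕ) : ℝ) := by exact_mod_cast hn'
    rw [pow_succ] at this
    push_cast at this
    linarith
  have hE0 : (0 : ℝ) < 2 ^ n := by positivity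
  have hk0 : (0 : ℝ) < (k : ℝ) + 1 := by positivity
  have hk1 : (1 : ℝ) ≤ (k : ℝ) + 1 := by
    have : (0 : ℝ) ≤ k := Nat.cast_nonneg k
    linarith
  have hKn' : 32 * ((k + 1) * (c * n * K)) ≤ 2 ^ n := by
    refine le_trans (le_of_eq ?_) hKn
    rw [hCe]
    ring
  have hK' : 32 * (((k : ℝ) + 1) * ((c * n * K : ℕ) : ℝ)) ≤ 2 ^ n := by exact_mod_cast hKn'
  have ha' : 16 * ((k : ℝ) + 1) * (a : ℝ) ≤ 2 ^ n := by exact_mod_cast ha3
  have hν' : 5 * (2 : ℝ) ^ n ≤ ((ν * (K - 2 * B) : ℕ) : ℝ) := by exact_mod_cast hνK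
  have hcn' : 32 * ((c * n : ℕ) : ℝ) ≤ 2 ^ n := by
    have h2 : 32 * (c * n) ≤ 32 * (C * K) :=
      Nat.mul_le_mul_left _ (hCc.trans (Nat.le_mul_of_pos_right _ (by omega)))
    exact_mod_cast h2.trans hKn
  set y : ℝ := (N : ℝ) / (2 * (k + 1)) with hy
  have hyN : 2 * (((k : ℝ) + 1) * y) = N := by
    rw [hy]
    field_simp
  have hy0 : 0 ≤ y := by positivity
  have hyP : y ≤ 2 ^ n := by
    have : y ≤ ((k : ℝ) + 1) * y := le_mul_of_one_le_left hy0 hk1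
    linarith
  have hy2 : (N : ℝ) / (k + 1) = 2 * y := by
    rw [hy]
    field_simp
  have hxy : 16 * ((c * n * K : ℕ) : ℝ) ≤ y := by
    refine le_of_mul_le_mul_left ?_ hk0
    linarith
  have hay : 8 * (a : ℝ) ≤ y := by
    refine le_of_mul_le_mul_left ?_ hk0
    linarith
  have hQK : (((2 ^ (c * n) : ℕ) : ℝ)) ^ K = (2 : ℝ) ^ ((c * n * K : ℕ) : ℝ) := by
    rw [← two_rpow_nat, pow_mul (2 : ℝ) (c * n) K]
    push_cast
    rfl
  have hQ1 : (((2 ^ (c * n) : ℕ) : ℝ)) = (2 : ℝ) ^ ((c * n : ℕ) : ℝ) := by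
    rw [← two_rpow_nat]
    push_cast
    rfl
  refine h1.trans ?_
  rw [hQK, hQ1, half_pow, half_pow, half_pow, rho_pow, two_rpow_nat N]
  set z := (2 : ℝ) ^ (-y) with hz
  have hz0 : 0 < z := by positivity
  set I := (Fintype.card (Ix (2 ^ (c * n)) (n + 4)) : ℝ) with hI
  have hI0 : 0 ≤ I := by positivity
  have hN0 : (0 : ℝ) ≤ N := Nat.cast_nonneg N
  have t1 : 3 * (2 : ℝ) ^ ((c * n * K : ℕ) : ℝ) * I *
      ((2 : ℝ) ^ (-(N : ℝ)) * (2 : ℝ) ^ ((N : ℝ) - N / (k + 1)) * (N + 2)) ≤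
        3 * (N + 2) * z := by
    calc 3 * (2 : ℝ) ^ ((c * n * K : ℕ) : ℝ) * I *
        ((2 : ℝ) ^ (-(N : ℝ)) * (2 : ℝ) ^ ((N : ℝ) - N / (k + 1)) * (N + 2)) ≤
        3 * (2 : ℝ) ^ ((c * n * K : ℕ) : ℝ) * (2 : ℝ) ^ (a : ℝ) *
        ((2 : ℝ) ^ (-(N : ℝ)) * (2 : ℝ) ^ ((N : ℝ) - N / (k + 1)) * (N + 2)) := by gcongr
      _ = 3 * (N + 2) * (2 : ℝ) ^ (((c * n * K : ℕ) : ℝ) + a + -(N : ℝ) +
          ((N : ℝ) - N / (k + 1))) := by
        rw [Real.rpow_add (by norm_num), Real.rpow_add (by norm_num), Real.rpow_add (by norm_num)]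
        ring
      _ ≤ 3 * (N + 2) * z := by
        refine mul_le_mul_of_nonneg_left ?_ (by positivity)
        refine Real.rpow_le_rpow_of_exponent_le (by norm_num) ?_
        rw [hy2]
        linarith
  have t2 : 3 * I * (2 : ℝ) ^ (-((ν * (K - 2 * B) : ℕ) : ℝ)) ≤ 3 * z := by
    calc 3 * I * (2 : ℝ) ^ (-((ν * (K - 2 * B) : ℕ) : ℝ)) ≤
        3 * (2 : ℝ) ^ (a : ℝ) * (2 : ℝ) ^ (-((ν * (K - 2 * B) : ℕ) : ℝ)) := by gcongr
      _ = 3 * (2 : ℝ) ^ ((a : ℝ) + -((ν * (K - 2 * B) : ℕ) : ℝ)) := by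
        rw [Real.rpow_add (by norm_num)]
        ring
      _ ≤ 3 * z := by
        refine mul_le_mul_of_nonneg_left ?_ (by positivity)
        refine Real.rpow_le_rpow_of_exponent_le (by norm_num) ?_
        linarith
  have t3 : 3 * (2 : ℝ) ^ ((c * n * K : ℕ) : ℝ) * I * (2 : ℝ) ^ (N : ℝ) *
      (2 : ℝ) ^ ((c * n : ℕ) : ℝ) * (2 * (2 : ℝ) ^ (-((2 ^ (n + 4 - 1) : ℕ) : ℝ))) ≤ 6 * z := by
    have h8 : ((2 ^ (n + 4 - 1) : ℕ) : ℝ) = 8 * 2 ^ n := by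
      have : n + 4 - 1 = 3 + n := by omega
      rw [this, pow_add]
      push_cast
      norm_num
    rw [h8]
    calc 3 * (2 : ℝ) ^ ((c * n * K : ℕ) : ℝ) * I * (2 : ℝ) ^ (N : ℝ) *
        (2 : ℝ) ^ ((c * n : ℕ) : ℝ) * (2 * (2 : ℝ) ^ (-(8 * (2 : ℝ) ^ n))) ≤
        3 * (2 : ℝ) ^ ((c * n * K : ℕ) : ℝ) * (2 : ℝ) ^ (a : ℝ) * (2 : ℝ) ^ (N : ℝ) *
        (2 : ℝ) ^ ((c * n : ℕ) : ℝ) * (2 * (2 : ℝ) ^ (-(8 * (2 : ℝ) ^ n))) := by gcongr
      _ = 6 * (2 : ℝ) ^ (((c * n * K : ℕ) : ℝ) + a + N + ((c * n : ℕ) : ℝ) +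
          -(8 * (2 : ℝ) ^ n)) := by
        rw [Real.rpow_add (by norm_num), Real.rpow_add (by norm_num), Real.rpow_add (by norm_num),
          Real.rpow_add (by norm_num)]
        ring
      _ ≤ 6 * z := by
        refine mul_le_mul_of_nonneg_left ?_ (by positivity)
        refine Real.rpow_le_rpow_of_exponent_le (by norm_num) ?_
        linarith
  nlinarith [t1, t2, t3, mul_nonneg hN0 hz0.le]

/-! ### Eventual inequalities -/

theorem ev1 (c : ℕ) : ∀ᶠ n : ℕ in atTop, 640 * (c * n) ≤ (n / 2 + 1) ^ 2 := by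
  filter_upwards [eventually_ge_atTop (2560 * c)] with n hn
  have h1 : n + 1 ≤ 2 * (n / 2 + 1) := by omega
  have h2 : (n + 1) ^ 2 ≤ (2 * (n / 2 + 1)) ^ 2 := Nat.pow_le_pow_left h1 2
  have h3 : 2560 * c * n ≤ n * n := Nat.mul_le_mul_right n hn
  nlinarith

theorem ev2 (c : ℕ) : ∀ᶠ n : ℕ in atTop, 64 * (c * n) * (1 + 2 * 2 ^ (n / 2 + 1)) ≤ 2 ^ n := by
  have h0 : Tendsto (fun n : ℕ => n / 2) atTop atTop := Nat.tendsto_div_const_atTop (by norm_num)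
  filter_upwards [h0.eventually (poly_le Polynomial.X (640 * c))] with n hn
  rw [Polynomial.eval_X] at hn
  have h1 : n ≤ 2 * (n / 2) + 1 := by omega
  have h2 : 2 ^ (n / 2) * 2 ^ (n / 2) ≤ 2 ^ n := by
    rw [← pow_add]
    exact Nat.pow_le_pow_right (by norm_num) (by omega)
  have h3 : 1 ≤ 2 ^ (n / 2) := Nat.one_le_two_pow
  have h4 : 1 + 2 * 2 ^ (n / 2 + 1) ≤ 5 * 2 ^ (n / 2) := by
    rw [pow_succ]
    omega
  have h5 : 320 * (c * n) ≤ 2 ^ (n / 2) := by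
    refine le_trans ?_ hn
    have h6 : c * n ≤ c * (2 * (n / 2) + 1) := Nat.mul_le_mul_left c h1
    nlinarith
  calc 64 * (c * n) * (1 + 2 * 2 ^ (n / 2 + 1)) ≤ 64 * (c * n) * (5 * 2 ^ (n / 2)) :=
        Nat.mul_le_mul_left _ h4
    _ = (320 * (c * n)) * 2 ^ (n / 2) := by ring
    _ ≤ 2 ^ (n / 2) * 2 ^ (n / 2) := Nat.mul_le_mul_right _ h5
    _ ≤ 2 ^ n := h2

theorem ev3 (c : ℕ) : ∀ᶠ n : ℕ in atTop, 32 * (c * n + 1) * (n + 4) ≤ 2 ^ n := by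
  filter_upwards [poly_le (Polynomial.X ^ 2) (128 * (c + 1))] with n hn
  rw [Polynomial.eval_pow, Polynomial.eval_X] at hn
  refine le_trans ?_ hn
  have h1 : c * n + 1 ≤ (c + 1) * (n + 1) := by nlinarith
  have h2 : n + 4 ≤ 4 * (n + 1) := by omega
  calc 32 * (c * n + 1) * (n + 4) ≤ 32 * ((c + 1) * (n + 1)) * (4 * (n + 1)) := by gcongr
    _ = 128 * (c + 1) * (n + 1) ^ 2 := by ring

theorem ev3' (κ c : ℕ) :
    ∀ᶠ n : ℕ in atTop, 32 * κ * ((c * n + 1) * (n + 4)) ≤ 2 ^ n := by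
  filter_upwards [ev3 (κ * (c + 1)), eventually_ge_atTop 1] with n hn h1
  refine le_trans ?_ hn
  have h2 : κ * (c * n + 1) ≤ κ * (c + 1) * n + 1 := by
    have : κ * 1 ≤ κ * n := Nat.mul_le_mul_left κ h1
    nlinarith
  calc 32 * κ * ((c * n + 1) * (n + 4)) = 32 * (κ * (c * n + 1)) * (n + 4) := by ring
    _ ≤ 32 * (κ * (c + 1) * n + 1) * (n + 4) := by gcongr

theorem ev4 (κ : ℕ) : ∀ᶠ n : ℕ in atTop, 32 * κ * (4 * (n + 4) * (n + 4)) ≤ 2 ^ n := by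
  filter_upwards [ev3' κ 20, eventually_ge_atTop 1] with n hn h1
  refine le_trans ?_ hn
  have h2 : 4 * (n + 4) ≤ 20 * n + 1 := by omega
  gcongr

theorem poly_pow (q : Polynomial ℕ) : ∃ c, ∀ m, 2 ≤ m → q.eval m ≤ m ^ c := by
  induction q using Polynomial.induction_on' with
  | add p q hp hq =>
    obtain ⟨c1, h1⟩ := hp
    obtain ⟨c2, h2⟩ := hq
    refine ⟨max c1 c2 + 1, fun m hm => ?_⟩
    rw [Polynomial.eval_add]
    have h3 : m ^ c1 ≤ m ^ max c1 c2 := Nat.pow_le_pow_right (by omega) (le_max_left _ _)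
    have h4 : m ^ c2 ≤ m ^ max c1 c2 := Nat.pow_le_pow_right (by omega) (le_max_right _ _)
    have h5 := h1 m hm
    have h6 := h2 m hm
    rw [pow_succ]
    nlinarith
  | monomial d a =>
    refine ⟨a + d, fun m hm => ?_⟩
    rw [Polynomial.eval_monomial, pow_add]
    refine Nat.mul_le_mul_right _ ?_
    exact (Nat.lt_pow_self (by omega)).le

theorem poly_two_pow (q : Polynomial ℕ) :
    ∃ c, 1 ≤ c ∧ ∀ n N, 1 ≤ n → N < 2 ^ (n + 1) → q.eval N ≤ 2 ^ (c * n) := by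
  obtain ⟨c, hc⟩ := poly_pow q
  refine ⟨2 * c + 1, by omega, fun n N hn hN => ?_⟩
  have h1 : 2 ≤ 2 ^ (n + 1) := by
    have : 1 ≤ 2 ^ n := Nat.one_le_two_pow
    rw [pow_succ]
    omega
  refine (eval_mono q hN.le).trans ((hc _ h1).trans ?_)
  rw [← pow_mul]
  refine Nat.pow_le_pow_right (by norm_num) ?_
  nlinarith

/-- The probabilities are summable. -/
theorem ev_pass (k : ℕ) {F : List Bool → QT ℝ} (hF : Nonneg F) (q : Polynomial ℕ)
    (hB : ∀ N v, v.length ≤ N → (F v).Bdd (q.eval N)) :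
    ∀ᶠ N : ℕ in atTop, mu.real {ω | Pass k F (orA (Or ω)) (XX ω) N} ≤
      12 * ((N : ℝ) + 2) * (2 : ℝ) ^ (-((N : ℝ) / (2 * (k + 1)))) := by
  obtain ⟨c, hc, hc'⟩ := poly_two_pow ((2 * Polynomial.X + 1) * q)
  have h0 : Tendsto (fun N : ℕ => Nat.log 2 N) atTop atTop := by
    refine tendsto_atTop_atTop.2 fun b => ⟨2 ^ b, fun a ha => ?_⟩
    exact (Nat.le_log_iff_pow_le (by norm_num) (by
      have : 1 ≤ 2 ^ b := Nat.one_le_two_pow
      omega)).2 ha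
  filter_upwards [h0.eventually (ev1 ((k + 1) * c)), h0.eventually (ev2 ((k + 1) * c)),
    h0.eventually (ev3' (k + 1) c), h0.eventually (ev4 (k + 1)),
    h0.eventually (eventually_ge_atTop 1), eventually_ge_atTop 1] with N i1 i2 i3 i4 hn1 hN1
  have hn : 2 ^ Nat.log 2 N ≤ N := Nat.pow_log_le_self 2 (by omega)
  have hn' : N < 2 ^ (Nat.log 2 N + 1) := Nat.lt_pow_succ_log_self (by norm_num) N
  refine pass_bound k hF hn hn' hc hn1 ?_ i1 i2 i3 i4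
  intro ans u hu
  have h1 := Nv_length (ans := ans) (hB N) u hu
  have h2 := hc' (Nat.log 2 N) N hn1 hn'
  rw [Polynomial.eval_mul] at h2
  simp only [Polynomial.eval_add, Polynomial.eval_mul, Polynomial.eval_ofNat, Polynomial.eval_X,
    Polynomial.eval_one] at h2
  refine h1.trans (le_trans (Nat.mul_le_mul_right _ ?_) h2)
  omega

theorem summable_bound (k : ℕ) : Summable fun N : ℕ => 12 * ((N : ℝ) + 2) * (2 : ℝ) ^ (-((N : ℝ) / (2 * (k + 1)))) := by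
  have h1 : ∀ N : ℕ, (2 : ℝ) ^ (-((N : ℝ) / (2 * (k + 1)))) =
      ((2 : ℝ) ^ (-((1 : ℝ) / (2 * (k + 1))))) ^ N := by
    intro N
    rw [← Real.rpow_natCast, ← Real.rpow_mul (by norm_num)]
    congr 1
    ring
  have h2 : ‖(2 : ℝ) ^ (-((1 : ℝ) / (2 * (k + 1))))‖ < 1 := by
    rw [Real.norm_of_nonneg (by positivity)]
    refine Real.rpow_lt_one_of_one_lt_of_neg (by norm_num) ?_
    have : (0 : ℝ) < 1 / (2 * (k + 1)) := by positivity
    linarith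
  have h3 := summable_pow_mul_geometric_of_norm_lt_one 1 h2
  have h4 := summable_pow_mul_geometric_of_norm_lt_one 0 h2
  refine ((h3.mul_left 12).add (h4.mul_left 24)).congr fun N => ?_
  rw [h1]
  ring

/-- Almost surely only finitely many of the events occur. -/
theorem null_pass (k : ℕ) {F : List Bool → QT ℝ} (hF : Nonneg F) (q : Polynomial ℕ)
    (hB : ∀ N v, v.length ≤ N → (F v).Bdd (q.eval N)) :
    mu {ω | ∃ᶠ N in atTop, Pass k F (orA (Or ω)) (XX ω) N} = 0 := by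
  have h1 : Summable fun N => mu.real {ω | Pass k F (orA (Or ω)) (XX ω) N} := by
    refine (summable_bound k).of_norm_bounded_eventually_nat ?_
    filter_upwards [ev_pass k hF q hB] with N hN
    rwa [Real.norm_of_nonneg measureReal_nonneg]
  have h2 : ∑' N, mu {ω | Pass k F (orA (Or ω)) (XX ω) N} ≠ ⊤ := by
    have h3 := h1.tsum_ofReal_ne_top
    have h4 : ∀ N, ENNReal.ofReal (mu.real {ω | Pass k F (orA (Or ω)) (XX ω) N}) =
        mu {ω | Pass k F (orA (Or ω)) (XX ω) N} := fun N => ofReal_measureReal (measure_ne_top _ _)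
    simpa only [h4] using h3
  have h3 := measure_limsup_atTop_eq_zero h2
  rw [Filter.limsup_eq_iInf_iSup_of_nat] at h3
  convert h3 using 2
  ext ω
  simp only [Set.mem_ofPred_eq, frequently_atTop]
  simp [Set.mem_iInter, Set.mem_iUnion]

end Pool.Agent.Helper79K.DM
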